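import Mathlib

set_option autoImplicit false

/-!
# The modal logic of best action: definitions
-/

namespace Pool.Agent.H88R3.BA

/-- Formulas of the language of best action; the players are the elements of `Fin (n + 1)`.
The constructors `move`, `moveBy i`, `movePlus`, `pref i`, `best`, `bestStar` are the diamonds;
the boxes are their duals. -/
inductive Fml (n : ℕ) : Type
  | bot : Fml n
  | prop (k : ℕ) : Fml n
  | imp (a b : Fml n) : Fml n
  | atEnd : Fml n
  | turn (i : Fin (n + 1)) : Fml n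
  | move (a : Fml n) : Fml n
  | moveBy (i : Fin (n + 1)) (a : Fml n) : Fml n
  | movePlus (a : Fml n) : Fml n
  | pref (i : Fin (n + 1)) (a : Fml n) : Fml n
  | best (a : Fml n) : Fml n
  | bestStar (a : Fml n) : Fml n

/-- Goedel numbering of formulas -/
def Fml.enc {n : ℕ} : Fml n → ℕ
  | .bot => Nat.pair 0 0
  | .prop k => Nat.pair 1 k
  | .imp a b => Nat.pair 2 (Nat.pair a.enc b.enc)
  | .atEnd => Nat.pair 3 0
  | .turn i => Nat.pair 4 i.val
  | .move a => Nat.pair 5 a.enc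
  | .moveBy i a => Nat.pair 6 (Nat.pair i.val a.enc)
  | .movePlus a => Nat.pair 7 a.enc
  | .pref i a => Nat.pair 8 (Nat.pair i.val a.enc)
  | .best a => Nat.pair 9 a.enc
  | .bestStar a => Nat.pair 10 a.enc

/-- Game structures on a set `V` of nodes with a valuation: the move relation, the turn
labelling (only its values at non-end nodes matter), the preference relations (only their
restrictions to end nodes matter) and the valuation of the proposition letters. -/
structure Game (n : ℕ) (V : Type) where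
  move : V → V → Prop
  turn : V → Fin (n + 1)
  le : Fin (n + 1) → V → V → Prop
  val : ℕ → V → Prop

variable {n : ℕ} {V : Type}

/-- end nodes -/
def Game.IsEnd (G : Game n V) (v : V) : Prop := ∀ w, ¬ G.move v w

/-- A game tree: the moves form a rooted tree, with moves from parent to child, and each
preference relation is a total preorder on the end nodes. -/
structure Game.IsTree (G : Game n V) : Prop where
  rooted : ∃ r, (∀ v, ¬ G.move v r) ∧ (∀ v, v ≠ r → ∃! u, G.move u v) ∧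
    ∀ v, Relation.ReflTransGen G.move r v
  total : ∀ i u v, G.IsEnd u → G.IsEnd v → G.le i u v ∨ G.le i v u
  trans : ∀ i u v w, G.IsEnd u → G.IsEnd v → G.IsEnd w → G.le i u v → G.le i v w → G.le i u w

/-- The moves which are active at the stages of relational Backward Induction: an active move
`x → y` becomes passive if some other active move `x → z` has every end node reachable from `y`
strictly worse, for the player whose turn it is at `x`, than every end node reachable from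
`z` (by active moves). -/
def Game.act (G : Game n V) : ℕ → V → V → Prop
  | 0 => G.move
  | s + 1 => fun x y => G.act s x y ∧ ¬ ∃ z, z ≠ y ∧ G.act s x z ∧
      ∀ u v, G.IsEnd u → G.IsEnd v → Relation.ReflTransGen (G.act s) y u →
        Relation.ReflTransGen (G.act s) z v → (G.le (G.turn x) u v ∧ ¬ G.le (G.turn x) v u)

/-- The relation best: the moves which stay active for ever. -/
def Game.best (G : Game n V) (x y : V) : Prop := ∀ s, G.act s x y

/-- Truth of a formula at a node. -/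
def Game.sat (G : Game n V) : Fml n → V → Prop
  | .bot, _ => False
  | .prop k, x => G.val k x
  | .imp a b, x => G.sat a x → G.sat b x
  | .atEnd, x => G.IsEnd x
  | .turn i, x => ¬ G.IsEnd x ∧ G.turn x = i
  | .move a, x => ∃ y, G.move x y ∧ G.sat a y
  | .moveBy i a, x => G.turn x = i ∧ ∃ y, G.move x y ∧ G.sat a y
  | .movePlus a, x => ∃ y, Relation.TransGen G.move x y ∧ G.sat a y
  | .pref i a, x => G.IsEnd x ∧ ∃ y, G.IsEnd y ∧ G.le i x y ∧ G.sat a y
  | .best a, x => ∃ y, G.best x y ∧ G.sat a y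
  | .bestStar a, x => ∃ y, Relation.ReflTransGen G.best x y ∧ G.sat a y

/-- Validity: truth at every node of every finite game tree (every finite rooted tree is, up to
isomorphism, on some `Fin N`). -/
def Valid (a : Fml n) : Prop :=
  ∀ (N : ℕ) (G : Game n (Fin N)), G.IsTree → ∀ x, G.sat a x

/-! ### the combinatorial description used in the proof -/

section chk

variable (n L N : ℕ) (F : ℕ → ℕ → ℕ → ℕ)

/-- `y` is a child of `x` -/
def Ch (x y : ℕ) : Prop := 0 < y ∧ F 0 y 0 = x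

/-- `x` is an end node -/
def En (x : ℕ) : Prop := ∀ y < N, ¬ Ch F x y

/-- `y` is a best child of `x` -/
def Be (x y : ℕ) : Prop := Ch F x y ∧ F 1 y 0 = 1

/-- truth table -/
def Tr (c x : ℕ) : Prop := F 5 c x = 1

/-- shape, turns, intervals and best moves -/
def ChkA : Prop :=
  0 < N ∧ (∀ y < N, 0 < y → F 0 y 0 < y) ∧ (∀ y < N, F 2 y 0 < n + 1) ∧
  (∀ x < N, En N F x → ∀ j < n + 1, F 3 j x = F 4 j x) ∧
  (∀ x < N, ∀ y < N, Ch F x y → (F 1 y 0 = 1 ↔ ∀ z < N, Ch F x z →
    F 3 (F 2 x 0) z ≤ F 4 (F 2 x 0) y)) ∧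
  (∀ x < N, ¬ En N F x → ∀ j < n + 1,
    ((∃ y < N, Be F x y ∧ F 3 j y = F 3 j x) ∧ ∀ y < N, Be F x y → F 3 j x ≤ F 3 j y) ∧
    ((∃ y < N, Be F x y ∧ F 4 j y = F 4 j x) ∧ ∀ y < N, Be F x y → F 4 j y ≤ F 4 j x))

/-- the truth table -/
def ChkT (x : ℕ) : Prop :=
  (Nat.pair 0 0 < L → ¬ Tr F (Nat.pair 0 0) x) ∧
  (∀ a < L, ∀ b < L, Nat.pair 2 (Nat.pair a b) < L →
    (Tr F (Nat.pair 2 (Nat.pair a b)) x ↔ (Tr F a x → Tr F b x))) ∧
  (Nat.pair 3 0 < L → (Tr F (Nat.pair 3 0) x ↔ En N F x)) ∧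
  (∀ i < n + 1, Nat.pair 4 i < L → (Tr F (Nat.pair 4 i) x ↔ ¬ En N F x ∧ F 2 x 0 = i)) ∧
  (∀ a < L, Nat.pair 5 a < L → (Tr F (Nat.pair 5 a) x ↔ ∃ y < N, Ch F x y ∧ Tr F a y)) ∧
  (∀ i < n + 1, ∀ a < L, Nat.pair 6 (Nat.pair i a) < L →
    (Tr F (Nat.pair 6 (Nat.pair i a)) x ↔ F 2 x 0 = i ∧ ∃ y < N, Ch F x y ∧ Tr F a y)) ∧
  (∀ a < L, Nat.pair 7 a < L → (Tr F (Nat.pair 7 a) x ↔
    ∃ y < N, Ch F x y ∧ (Tr F a y ∨ Tr F (Nat.pair 7 a) y))) ∧
  (∀ i < n + 1, ∀ a < L, Nat.pair 8 (Nat.pair i a) < L →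
    (Tr F (Nat.pair 8 (Nat.pair i a)) x ↔ En N F x ∧ ∃ y < N, En N F y ∧ F 3 i x ≤ F 3 i y ∧
      Tr F a y)) ∧
  (∀ a < L, Nat.pair 9 a < L → (Tr F (Nat.pair 9 a) x ↔ ∃ y < N, Be F x y ∧ Tr F a y)) ∧
  (∀ a < L, Nat.pair 10 a < L → (Tr F (Nat.pair 10 a) x ↔
    Tr F a x ∨ ∃ y < N, Be F x y ∧ Tr F (Nat.pair 10 a) y))

/-- `F` describes a game tree with `N` nodes, with truth table for the codes below `L` -/
def Chk : Prop := ChkA n N F ∧ ∀ x < N, ChkT n L N F x

end chk

/-- bound for the relevant codes -/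
def Lc (e : ℕ) : ℕ := Nat.pair 7 (Nat.pair 2 (Nat.pair e (Nat.pair 0 0))) + 1

/-- width bound -/
def Wd (n L : ℕ) : ℕ := 2 ^ L * (2 ^ L) ^ (n + 1) * 2 + 2 * (n + 1) + 2

/-- number of summaries -/
def Sd (n L : ℕ) : ℕ := 2 ^ L * ((3 ^ L * 3 ^ L * 2) ^ (n + 1)) * (2 ^ L) ^ (n + 1)

/-- size bound -/
def Bd (n L : ℕ) : ℕ := Wd n L ^ Sd n L

/-- bound for the entries of the tables -/
def Ed (n N : ℕ) : ℕ := 2 * N + n + 2

end Pool.Agent.H88R3.BA
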