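import Mathlib
import Pool.Agent.H88R3.BA.Defs

set_option autoImplicit false

namespace Pool.Agent.H88R3.BA

open Relation

variable {n : ℕ} {V : Type}

/-! ### the tree order -/

theorem Game.IsTree.acyclic {G : Game n V} (hG : G.IsTree) (v : V) : ¬ TransGen G.move v v := by
  obtain ⟨r, h1, h2, h3⟩ := hG.rooted
  have key : ∀ v, ReflTransGen G.move r v → ¬ TransGen G.move v v := by
    intro v hv
    induction hv with
    | refl =>
      intro h
      obtain ⟨w, -, hw⟩ := TransGen.tail'_iff.1 h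
      exact h1 _ hw
    | tail _ huv ih =>
      rename_i u v _
      intro h
      obtain ⟨w, hw1, hw2⟩ := TransGen.tail'_iff.1 h
      have hv : v ≠ r := fun e => h1 u (e ▸ huv)
      have e : w = u := (h2 v hv).unique hw2 huv
      subst e
      exact ih (TransGen.head' huv hw1)
  exact key v (h3 v)

/-- descendants are smaller -/
theorem Game.IsTree.wf [Finite V] {G : Game n V} (hG : G.IsTree) :
    WellFounded (fun y x => TransGen G.move x y) := by
  have : IsTrans V (fun y x => TransGen G.move x y) := ⟨fun a b c h1 h2 => h2.trans h1⟩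
  have : Std.Irrefl (fun y x => TransGen G.move x y) := ⟨fun a h => hG.acyclic a h⟩
  exact Finite.wellFounded_of_trans_of_irrefl _

/-! ### reachable end nodes -/

/-- the end nodes reachable by a relation -/
def Rch (G : Game n V) (σ : V → V → Prop) (x u : V) : Prop := G.IsEnd u ∧ ReflTransGen σ x u

/-- the equation of the best relation -/
def Eqn (G : Game n V) (σ : V → V → Prop) : Prop :=
  ∀ x y, σ x y ↔ G.move x y ∧ ∀ z, G.move x z →
    ∃ u v, Rch G σ z u ∧ Rch G σ y v ∧ G.le (G.turn x) u v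

theorem rtg_mono {r p : V → V → Prop} (h : ∀ a b, r a b → p a b) {x y : V}
    (hxy : ReflTransGen r x y) : ReflTransGen p x y := by
  induction hxy with
  | refl => exact .refl
  | tail _ h2 ih => exact ih.tail (h _ _ h2)

theorem rtg_congr {G : Game n V} {σ τ : V → V → Prop} (hσ : ∀ x y, σ x y → G.move x y)
    {z : V} (h : ∀ w, ReflTransGen G.move z w → ∀ y, σ w y → τ w y) {u : V}
    (hu : ReflTransGen σ z u) : ReflTransGen τ z u := by
  induction hu with
  | refl => exact .refl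
  | tail h1 h2 ih => exact ih.tail (h _ (rtg_mono hσ h1) _ h2)

theorem Eqn.unique [Finite V] {G : Game n V} (hG : G.IsTree) {σ τ : V → V → Prop}
    (hσ : Eqn G σ) (hτ : Eqn G τ) : σ = τ := by
  have key : ∀ x, ∀ y, σ x y ↔ τ x y := by
    intro x
    induction x using hG.wf.induction with
    | _ x ih =>
      have hz : ∀ z, G.move x z → ∀ w, ReflTransGen G.move z w → ∀ y, (σ w y ↔ τ w y) :=
        fun z hxz w hw => ih w (TransGen.head' hxz hw)
      have hR : ∀ z, G.move x z → ∀ u, Rch G σ z u ↔ Rch G τ z u := by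
        intro z hxz u
        constructor
        · rintro ⟨h1, h2⟩
          exact ⟨h1, rtg_congr (fun a b h => ((hσ a b).1 h).1)
            (fun w hw y h => (hz z hxz w hw y).1 h) h2⟩
        · rintro ⟨h1, h2⟩
          exact ⟨h1, rtg_congr (fun a b h => ((hτ a b).1 h).1)
            (fun w hw y h => (hz z hxz w hw y).2 h) h2⟩
      intro y
      rw [hσ, hτ]
      refine and_congr_right fun hxy => forall_congr' fun z => imp_congr_right fun hxz => ?_
      simp only [hR z hxz, hR y hxy]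
  funext x y
  exact propext (key x y)

/-! ### ranks -/

/-- number of end nodes which are not better -/
noncomputable def rk (G : Game n V) (i : Fin (n + 1)) (u : V) : ℕ :=
  Nat.card {v : V // G.IsEnd v ∧ G.le i v u}

theorem le_iff_rk [Finite V] {G : Game n V} (hG : G.IsTree) (i : Fin (n + 1)) {u v : V}
    (hu : G.IsEnd u) (hv : G.IsEnd v) : G.le i u v ↔ rk G i u ≤ rk G i v := by
  have mono : ∀ {u v : V}, G.IsEnd u → G.IsEnd v → G.le i u v → rk G i u ≤ rk G i v := by
    intro u v hu hv h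
    exact Nat.card_le_card_of_injective
      (fun w : {w : V // G.IsEnd w ∧ G.le i w u} =>
        (⟨w.1, w.2.1, hG.trans i _ _ _ w.2.1 hu hv w.2.2 h⟩ : {w : V // G.IsEnd w ∧ G.le i w v}))
      (fun a b h => Subtype.ext (congrArg (fun z : {w : V // G.IsEnd w ∧ G.le i w v} => z.1) h))
  refine ⟨mono hu hv, fun h => ?_⟩
  by_contra hn
  have hvu : G.le i v u := (hG.total i u v hu hv).resolve_left hn
  have huu : G.le i u u := (hG.total i u u hu hu).elim id id
  have h2 : rk G i v < rk G i u := by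
    refine Set.ncard_lt_ncard (s := {w : V | G.IsEnd w ∧ G.le i w v})
      (t := {w : V | G.IsEnd w ∧ G.le i w u}) ?_ (Set.toFinite _)
    refine ⟨fun w hw => ⟨hw.1, hG.trans i _ _ _ hw.1 hv hu hw.2 hvu⟩, fun hs => hn ?_⟩
    exact (hs (show u ∈ {w : V | G.IsEnd w ∧ G.le i w u} from ⟨hu, huu⟩)).2
  omega

/-! ### the stages -/

theorem act_succ_le (G : Game n V) (s : ℕ) {x y : V} (h : G.act (s + 1) x y) : G.act s x y := h.1

theorem act_anti (G : Game n V) {s t : ℕ} (hst : s ≤ t) {x y : V} (h : G.act t x y) :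
    G.act s x y := by
  induction hst with
  | refl => exact h
  | step _ ih => exact ih (act_succ_le G _ h)

theorem best_move (G : Game n V) {x y : V} (h : G.best x y) : G.move x y := h 0

theorem stab [Finite V] (G : Game n V) : ∃ S, ∀ x y, G.act S x y ↔ G.best x y := by
  classical
  obtain ⟨S, hS⟩ := Finite.exists_le (fun p : V × V =>
    if h : ∃ s, ¬ G.act s p.1 p.2 then h.choose else 0)
  refine ⟨S, fun x y => ⟨fun h => ?_, fun h => h S⟩⟩
  by_contra hn
  have hn' : ∃ s, ¬ G.act s x y := by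
    by_contra h'
    push Not at h'
    exact hn h'
  have := hS (x, y)
  rw [dif_pos hn'] at this
  exact hn'.choose_spec (act_anti G this h)

theorem exists_top [Finite V] {G : Game n V} (hG : G.IsTree) {x : V}
    (hx : ¬ G.IsEnd x) (hne : ∀ z, G.move x z → ∃ u, Rch G G.best z u) :
    ∃ w, G.best x w ∧ ∀ z, G.move x z → ∀ v, Rch G G.best w v →
      ∃ u, Rch G G.best z u ∧ G.le (G.turn x) u v := by
  classical
  set i := G.turn x with hi
  let m : V → ℕ := fun z => sInf {k | ∃ u, Rch G G.best z u ∧ rk G i u = k}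
  have hm : ∀ z, G.move x z → ∃ u, Rch G G.best z u ∧ rk G i u = m z := by
    intro z hz
    obtain ⟨u, hu⟩ := hne z hz
    exact Nat.sInf_mem (s := {k | ∃ u, Rch G G.best z u ∧ rk G i u = k}) ⟨_, u, hu, rfl⟩
  have hm' : ∀ z u, Rch G G.best z u → m z ≤ rk G i u := fun z u hu => Nat.sInf_le ⟨u, hu, rfl⟩
  have hne' : Nonempty {z // G.move x z} := by
    by_contra h
    exact hx fun w hw => h ⟨⟨w, hw⟩⟩
  obtain ⟨⟨w, hw⟩, hmax⟩ := Finite.exists_max (fun z : {z // G.move x z} => m z.1)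
  refine ⟨w, ?_, ?_⟩
  · intro s
    induction s with
    | zero => exact hw
    | succ s ih =>
      refine ⟨ih, ?_⟩
      rintro ⟨z, -, hz, hd⟩
      have hxz : G.move x z := act_anti G (Nat.zero_le s) hz
      obtain ⟨u0, hu0, hu0'⟩ := hm w hw
      obtain ⟨v0, hv0, hv0'⟩ := hm z hxz
      have hmono : ∀ a b, G.best a b → G.act s a b := fun a b h => h s
      have := hd u0 v0 hu0.1 hv0.1 (rtg_mono hmono hu0.2) (rtg_mono hmono hv0.2)
      rw [← hi, le_iff_rk hG i hv0.1 hu0.1] at this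
      have h3 := hmax ⟨z, hxz⟩
      simp only at h3
      omega
  · intro z hz v hv
    obtain ⟨u, hu, hu'⟩ := hm z hz
    refine ⟨u, hu, ?_⟩
    rw [le_iff_rk hG i hu.1 hv.1, hu']
    exact (hmax ⟨z, hz⟩).trans (hm' _ _ hv)

theorem exists_rch [Finite V] {G : Game n V} (hG : G.IsTree) (x : V) :
    ∃ u, Rch G G.best x u := by
  induction x using hG.wf.induction with
  | _ x ih =>
    by_cases hx : G.IsEnd x
    · exact ⟨x, hx, .refl⟩
    · obtain ⟨w, hw, -⟩ := exists_top hG hx (fun z hz => ih z (.single hz))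
      obtain ⟨u, hu⟩ := ih w (.single (best_move G hw))
      exact ⟨u, hu.1, hu.2.head hw⟩

theorem best_eqn [Finite V] {G : Game n V} (hG : G.IsTree) : Eqn G G.best := by
  intro x y
  constructor
  · intro h
    refine ⟨best_move G h, fun z hz => ?_⟩
    have hx : ¬ G.IsEnd x := fun hx => hx _ hz
    obtain ⟨w, hw, hw'⟩ := exists_top hG hx (fun z _ => exists_rch hG z)
    by_cases hwy : w = y
    · subst hwy
      obtain ⟨v, hv⟩ := exists_rch hG w
      obtain ⟨u, hu, huv⟩ := hw' z hz v hv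
      exact ⟨u, v, hu, hv, huv⟩
    · obtain ⟨S, hS⟩ := stab G
      have h1 := (h (S + 1)).2
      push Not at h1
      obtain ⟨v, u, hv, hu, hvR, huR, h2⟩ := h1 w hwy (hw S)
      have e : G.act S = G.best := by
        funext a b
        exact propext (hS a b)
      rw [e] at hvR huR
      have huv : G.le (G.turn x) u v := by
        by_cases h3 : G.le (G.turn x) v u
        · exact h2 h3
        · exact (hG.total _ _ _ hu hv).resolve_right h3
      obtain ⟨t, ht, htu⟩ := hw' z hz u ⟨hu, huR⟩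
      exact ⟨t, v, ht, ⟨hv, hvR⟩, hG.trans _ _ _ _ ht.1 hu hv htu huv⟩
  · rintro ⟨h1, h2⟩ s
    induction s with
    | zero => exact h1
    | succ s ih =>
      refine ⟨ih, ?_⟩
      rintro ⟨z, -, hz, hd⟩
      obtain ⟨u, v, hu, hv, huv⟩ := h2 z (act_anti G (Nat.zero_le s) hz)
      have hmono : ∀ a b, G.best a b → G.act s a b := fun a b h => h s
      exact (hd v u hv.1 hu.1 (rtg_mono hmono hv.2) (rtg_mono hmono hu.2)).2 huv

/-! ### local description by intervals -/

/-- the local conditions -/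
structure Loc (G : Game n V) (σ : V → V → Prop) (lo hi : Fin (n + 1) → V → ℕ) : Prop where
  leaf : ∀ x, G.IsEnd x → ∀ j, lo j x = hi j x
  le : ∀ i u v, G.IsEnd u → G.IsEnd v → (G.le i u v ↔ lo i u ≤ lo i v)
  sig : ∀ x y, σ x y ↔ G.move x y ∧ ∀ z, G.move x z → lo (G.turn x) z ≤ hi (G.turn x) y
  lo_ex : ∀ x, ¬ G.IsEnd x → ∀ j, ∃ y, σ x y ∧ lo j y = lo j x
  lo_le : ∀ x y j, σ x y → lo j x ≤ lo j y
  hi_ex : ∀ x, ¬ G.IsEnd x → ∀ j, ∃ y, σ x y ∧ hi j y = hi j x
  hi_le : ∀ x y j, σ x y → hi j y ≤ hi j x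

theorem Loc.range [Finite V] {G : Game n V} (hG : G.IsTree) {σ : V → V → Prop}
    {lo hi : Fin (n + 1) → V → ℕ} (h : Loc G σ lo hi) (j : Fin (n + 1)) (x : V) :
    ((∃ u, Rch G σ x u ∧ lo j u = lo j x) ∧ ∀ u, Rch G σ x u → lo j x ≤ lo j u) ∧
    ((∃ u, Rch G σ x u ∧ lo j u = hi j x) ∧ ∀ u, Rch G σ x u → lo j u ≤ hi j x) := by
  have hσ : ∀ x y, σ x y → G.move x y := fun x y hxy => ((h.sig x y).1 hxy).1
  have hstep : ∀ x u, ¬ G.IsEnd x → Rch G σ x u → ∃ y, σ x y ∧ Rch G σ y u := by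
    rintro x u hx ⟨hu, hxu⟩
    rcases ReflTransGen.cases_head hxu with e | ⟨y, hy, hyu⟩
    · exact absurd (e ▸ hu) hx
    · exact ⟨y, hy, hu, hyu⟩
  have hend : ∀ x u, G.IsEnd x → Rch G σ x u → u = x := by
    rintro x u hx ⟨hu, hxu⟩
    rcases ReflTransGen.cases_head hxu with e | ⟨y, hy, hyu⟩
    · exact e.symm
    · exact absurd (hσ _ _ hy) (hx y)
  induction x using hG.wf.induction with
  | _ x ih =>
    by_cases hx : G.IsEnd x
    · refine ⟨⟨⟨x, ⟨hx, .refl⟩, rfl⟩, fun u hu => ?_⟩, ⟨x, ⟨hx, .refl⟩, h.leaf x hx j⟩,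
        fun u hu => ?_⟩
      · rw [hend x u hx hu]
      · rw [hend x u hx hu, h.leaf x hx j]
    · have ih' : ∀ y, σ x y → _ := fun y hy => ih y (.single (hσ _ _ hy))
      refine ⟨⟨?_, ?_⟩, ?_, ?_⟩
      · obtain ⟨y, hy, e⟩ := h.lo_ex x hx j
        obtain ⟨u, hu, hu'⟩ := (ih' y hy).1.1
        exact ⟨u, ⟨hu.1, hu.2.head hy⟩, hu'.trans e⟩
      · intro u hu
        obtain ⟨y, hy, hyu⟩ := hstep x u hx hu
        exact (h.lo_le x y j hy).trans ((ih' y hy).1.2 u hyu)
      · obtain ⟨y, hy, e⟩ := h.hi_ex x hx j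
        obtain ⟨u, hu, hu'⟩ := (ih' y hy).2.1
        exact ⟨u, ⟨hu.1, hu.2.head hy⟩, hu'.trans e⟩
      · intro u hu
        obtain ⟨y, hy, hyu⟩ := hstep x u hx hu
        exact ((ih' y hy).2.2 u hyu).trans (h.hi_le x y j hy)

theorem Loc.eq_best [Finite V] {G : Game n V} (hG : G.IsTree) {σ : V → V → Prop}
    {lo hi : Fin (n + 1) → V → ℕ} (h : Loc G σ lo hi) : σ = G.best := by
  refine Eqn.unique hG ?_ (best_eqn hG)
  intro x y
  rw [h.sig]
  refine and_congr_right fun hxy => forall_congr' fun z => imp_congr_right fun hxz => ?_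
  constructor
  · intro hle
    obtain ⟨u, hu, hu'⟩ := (h.range hG (G.turn x) z).1.1
    obtain ⟨v, hv, hv'⟩ := (h.range hG (G.turn x) y).2.1
    exact ⟨u, v, hu, hv, (h.le _ _ _ hu.1 hv.1).2 (by rw [hu', hv']; exact hle)⟩
  · rintro ⟨u, v, hu, hv, huv⟩
    have h1 := (h.range hG (G.turn x) z).1.2 u hu
    have h2 := (h.range hG (G.turn x) y).2.2 v hv
    have h3 := (h.le _ _ _ hu.1 hv.1).1 huv
    omega

theorem exists_loc [Finite V] {G : Game n V} (hG : G.IsTree) :
    ∃ lo hi, Loc G G.best lo hi := by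
  classical
  let Sx : Fin (n + 1) → V → Set ℕ := fun j x => {k | ∃ u, Rch G G.best x u ∧ rk G j u = k}
  have hne : ∀ j x, (Sx j x).Nonempty := by
    intro j x
    obtain ⟨u, hu⟩ := exists_rch hG x
    exact ⟨_, u, hu, rfl⟩
  have hfin : ∀ j x, (Sx j x).Finite := by
    intro j x
    refine (Set.finite_range (fun u => rk G j u)).subset ?_
    rintro k ⟨u, -, rfl⟩
    exact ⟨u, rfl⟩
  have hbdd : ∀ j x, BddAbove (Sx j x) := fun j x => (hfin j x).bddAbove
  have hstep : ∀ x u, ¬ G.IsEnd x → Rch G G.best x u → ∃ y, G.best x y ∧ Rch G G.best y u := by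
    rintro x u hx ⟨hu, hxu⟩
    rcases ReflTransGen.cases_head hxu with e | ⟨y, hy, hyu⟩
    · exact absurd (e ▸ hu) hx
    · exact ⟨y, hy, hu, hyu⟩
  have hend : ∀ x u, G.IsEnd x → Rch G G.best x u → u = x := by
    rintro x u hx ⟨hu, hxu⟩
    rcases ReflTransGen.cases_head hxu with e | ⟨y, hy, hyu⟩
    · exact e.symm
    · exact absurd (best_move G hy) (hx y)
  have hsub : ∀ x y j, G.best x y → Sx j y ⊆ Sx j x := by
    rintro x y j hxy k ⟨u, hu, rfl⟩
    exact ⟨u, ⟨hu.1, hu.2.head hxy⟩, rfl⟩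
  have hlo : ∀ j x, sInf (Sx j x) ∈ Sx j x := fun j x => Nat.sInf_mem (hne j x)
  have hhi : ∀ j x, sSup (Sx j x) ∈ Sx j x := fun j x => Nat.sSup_mem (hne j x) (hbdd j x)
  have hle1 : ∀ j x k, k ∈ Sx j x → sInf (Sx j x) ≤ k := fun j x k hk => Nat.sInf_le hk
  have hle2 : ∀ j x k, k ∈ Sx j x → k ≤ sSup (Sx j x) := fun j x k hk => le_csSup (hbdd j x) hk
  have hleaf : ∀ x, G.IsEnd x → ∀ j, Sx j x = {rk G j x} := by
    intro x hx j
    ext k
    constructor
    · rintro ⟨u, hu, rfl⟩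
      rw [hend x u hx hu]
      rfl
    · rintro rfl
      exact ⟨x, ⟨hx, .refl⟩, rfl⟩
  refine ⟨fun j x => sInf (Sx j x), fun j x => sSup (Sx j x), ?_, ?_, ?_, ?_, ?_, ?_, ?_⟩
  · intro x hx j
    simp only [hleaf x hx j, csInf_singleton, csSup_singleton]
  · intro i u v hu hv
    simp only [hleaf u hu i, hleaf v hv i, csInf_singleton]
    exact le_iff_rk hG i hu hv
  · intro x y
    rw [best_eqn hG x y]
    refine and_congr_right fun hxy => forall_congr' fun z => imp_congr_right fun hxz => ?_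
    constructor
    · rintro ⟨u, v, hu, hv, huv⟩
      have h1 := hle1 (G.turn x) z _ ⟨u, hu, rfl⟩
      have h2 := hle2 (G.turn x) y _ ⟨v, hv, rfl⟩
      have h3 := (le_iff_rk hG _ hu.1 hv.1).1 huv
      exact (h1.trans h3).trans h2
    · intro hle
      obtain ⟨u, hu, hu'⟩ := hlo (G.turn x) z
      obtain ⟨v, hv, hv'⟩ := hhi (G.turn x) y
      refine ⟨u, v, hu, hv, (le_iff_rk hG _ hu.1 hv.1).2 ?_⟩
      rw [hu', hv']
      exact hle
  · intro x hx j
    obtain ⟨u, hu, hu'⟩ := hlo j x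
    obtain ⟨y, hy, hyu⟩ := hstep x u hx hu
    refine ⟨y, hy, le_antisymm ?_ (hle1 _ _ _ (hsub x y j hy (hlo j y)))⟩
    rw [← hu']
    exact hle1 _ _ _ ⟨u, hyu, rfl⟩
  · intro x y j hxy
    exact hle1 _ _ _ (hsub x y j hxy (hlo j y))
  · intro x hx j
    obtain ⟨u, hu, hu'⟩ := hhi j x
    obtain ⟨y, hy, hyu⟩ := hstep x u hx hu
    refine ⟨y, hy, le_antisymm (hle2 _ _ _ (hsub x y j hy (hhi j y))) ?_⟩
    rw [← hu']
    exact hle2 _ _ _ ⟨u, hyu, rfl⟩
  · intro x y j hxy
    exact hle2 _ _ _ (hsub x y j hxy (hhi j y))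

end Pool.Agent.H88R3.BA
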