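import Mathlib
import Pool.Agent.H88R3.BA.Defs

set_option autoImplicit false

namespace Pool.Agent.H88R3.BA

/-! ### strictly monotone extensions -/

theorem ext_mono (A : Finset ℚ) (f : ℚ → ℚ) (hf : StrictMonoOn f (A : Set ℚ)) (B : Finset ℚ) :
    ∃ g : ℚ → ℚ, (∀ a ∈ A, g a = f a) ∧ StrictMonoOn g ((A ∪ B : Finset ℚ) : Set ℚ) := by
  classical
  induction B using Finset.induction_on with
  | empty => exact ⟨f, fun _ _ => rfl, by simpa using hf⟩
  | insert b B hb ih =>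
    obtain ⟨g, hg1, hg2⟩ := ih
    by_cases hbA : b ∈ A ∪ B
    · refine ⟨g, hg1, ?_⟩
      have : A ∪ insert b B = A ∪ B := by
        ext x
        simp only [Finset.mem_union, Finset.mem_insert]
        constructor
        · rintro (h | h | h)
          · exact Or.inl h
          · subst h
            exact Finset.mem_union.1 hbA
          · exact Or.inr h
        · rintro (h | h)
          · exact Or.inl h
          · exact Or.inr (Or.inr h)
      rw [this]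
      exact hg2
    · obtain ⟨c, hc1, hc2⟩ := Order.exists_between_finsets
        (((A ∪ B).filter (· < b)).image g) (((A ∪ B).filter (b < ·)).image g) (by
          intro x hx y hy
          obtain ⟨x', hx', rfl⟩ := Finset.mem_image.1 hx
          obtain ⟨y', hy', rfl⟩ := Finset.mem_image.1 hy
          rw [Finset.mem_filter] at hx' hy'
          exact hg2 (Finset.mem_coe.2 hx'.1) (Finset.mem_coe.2 hy'.1) (hx'.2.trans hy'.2))
      have key : ∀ x ∈ A ∪ insert b B, x = b ∨ x ∈ A ∪ B := by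
        intro x hx
        simp only [Finset.mem_union, Finset.mem_insert] at hx ⊢
        tauto
      refine ⟨Function.update g b c, ?_, ?_⟩
      · intro a ha
        have : a ≠ b := fun e => hbA (Finset.mem_union_left _ (e ▸ ha))
        rw [Function.update_of_ne this, hg1 a ha]
      · intro x hx y hy hxy
        rcases key x (Finset.mem_coe.1 hx) with rfl | hx'
        · have hyb : y ≠ x := hxy.ne'
          rcases key y (Finset.mem_coe.1 hy) with e | hy'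
          · exact absurd e hyb
          · rw [Function.update_self, Function.update_of_ne hyb]
            exact hc2 _ (Finset.mem_image_of_mem _ (Finset.mem_filter.2 ⟨hy', hxy⟩))
        · have hxb : x ≠ b := fun e => hbA (e ▸ hx')
          rcases key y (Finset.mem_coe.1 hy) with rfl | hy'
          · rw [Function.update_self, Function.update_of_ne hxb]
            exact hc1 _ (Finset.mem_image_of_mem _ (Finset.mem_filter.2 ⟨hx', hxy⟩))
          · have hyb : y ≠ b := fun e => hbA (e ▸ hy')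
            rw [Function.update_of_ne hxb, Function.update_of_ne hyb]
            exact hg2 (Finset.mem_coe.2 hx') (Finset.mem_coe.2 hy') hxy

/-! ### node data and local conditions -/

/-- data at a node: truth values and the interval of the values of the best outcomes -/
@[ext] structure ND where
  T : ℕ → Prop
  lo : ℕ → ℚ
  hi : ℕ → ℚ

/-- the local conditions at a node with turn `tn`, data `d`, whose children with their best flags
form the set `C`; `θ` are the thresholds -/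
structure LocAt (n L : ℕ) (θ : ℕ → ℕ → WithBot ℚ) (tn : ℕ) (d : ND) (C : Set (Prop × ND)) :
    Prop where
  tn_lt : tn < n + 1
  le : ∀ j < n + 1, d.lo j ≤ d.hi j
  leaf : C = ∅ → ∀ j < n + 1, d.lo j = d.hi j
  sig : ∀ c ∈ C, (c.1 ↔ ∀ c' ∈ C, c'.2.lo tn ≤ c.2.hi tn)
  lo_ex : C ≠ ∅ → ∀ j < n + 1, ∃ c ∈ C, c.1 ∧ c.2.lo j = d.lo j
  lo_le : ∀ j < n + 1, ∀ c ∈ C, c.1 → d.lo j ≤ c.2.lo j
  hi_ex : C ≠ ∅ → ∀ j < n + 1, ∃ c ∈ C, c.1 ∧ c.2.hi j = d.hi j
  hi_le : ∀ j < n + 1, ∀ c ∈ C, c.1 → c.2.hi j ≤ d.hi j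
  t0 : Nat.pair 0 0 < L → ¬ d.T (Nat.pair 0 0)
  t2 : ∀ a b, Nat.pair 2 (Nat.pair a b) < L → (d.T (Nat.pair 2 (Nat.pair a b)) ↔ (d.T a → d.T b))
  t3 : Nat.pair 3 0 < L → (d.T (Nat.pair 3 0) ↔ C = ∅)
  t4 : ∀ i < n + 1, Nat.pair 4 i < L → (d.T (Nat.pair 4 i) ↔ C ≠ ∅ ∧ tn = i)
  t5 : ∀ a, Nat.pair 5 a < L → (d.T (Nat.pair 5 a) ↔ ∃ c ∈ C, c.2.T a)
  t6 : ∀ i < n + 1, ∀ a, Nat.pair 6 (Nat.pair i a) < L →
    (d.T (Nat.pair 6 (Nat.pair i a)) ↔ tn = i ∧ ∃ c ∈ C, c.2.T a)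
  t7 : ∀ a, Nat.pair 7 a < L → (d.T (Nat.pair 7 a) ↔ ∃ c ∈ C, (c.2.T a ∨ c.2.T (Nat.pair 7 a)))
  t8 : ∀ i < n + 1, ∀ a, Nat.pair 8 (Nat.pair i a) < L →
    (d.T (Nat.pair 8 (Nat.pair i a)) ↔ C = ∅ ∧ (d.lo i : WithBot ℚ) ≤ θ i a)
  t9 : ∀ a, Nat.pair 9 a < L → (d.T (Nat.pair 9 a) ↔ ∃ c ∈ C, c.1 ∧ c.2.T a)
  t10 : ∀ a, Nat.pair 10 a < L → (d.T (Nat.pair 10 a) ↔ d.T a ∨
    ∃ c ∈ C, c.1 ∧ c.2.T (Nat.pair 10 a))
  g1 : C = ∅ → ∀ i < n + 1, ∀ a < L, d.T a → (d.lo i : WithBot ℚ) ≤ θ i a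

/-- labelled trees -/
structure Fr (V : Type) where
  par : V → Option V
  dep : V → ℕ
  root : V
  sg : V → Prop
  turn : V → ℕ
  nd : V → ND

/-- the children with their flags -/
def Fr.C {V : Type} (A : Fr V) (x : V) : Set (Prop × ND) :=
  {c | ∃ y, A.par y = some x ∧ c = (A.sg y, A.nd y)}

/-- correct labelled trees -/
structure Fr.Ok {V : Type} (n L : ℕ) (θ : ℕ → ℕ → WithBot ℚ) (A : Fr V) : Prop where
  root : ∀ v, A.par v = none ↔ v = A.root
  dep : ∀ u v, A.par v = some u → A.dep u < A.dep v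
  loc : ∀ x, LocAt n L θ (A.turn x) (A.nd x) (A.C x)

/-- a witness for a threshold below `x` -/
def Wt {V : Type} (n L : ℕ) (θ : ℕ → ℕ → WithBot ℚ) (A : Fr V) (x : V) (i a : ℕ) : Prop :=
  i < n + 1 ∧ a < L ∧ ∃ v, Relation.ReflTransGen (fun u w => A.par w = some u) x v ∧
    A.C v = ∅ ∧ (A.nd v).T a ∧ ((A.nd v).lo i : WithBot ℚ) = θ i a

/-- a witness for a threshold anywhere -/
def Wa {V : Type} (n L : ℕ) (θ : ℕ → ℕ → WithBot ℚ) (A : Fr V) (i a : ℕ) : Prop :=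
  i < n + 1 ∧ a < L ∧ ∃ v, A.C v = ∅ ∧ (A.nd v).T a ∧ ((A.nd v).lo i : WithBot ℚ) = θ i a

/-- existence of a small labelled tree -/
def Sma (n L : ℕ) (θ : ℕ → ℕ → WithBot ℚ) (M : ℕ) (d : ND) (w : ℕ → ℕ → Prop) : Prop :=
  ∃ (V : Type) (_ : Fintype V) (A : Fr V), A.Ok n L θ ∧ A.nd A.root = d ∧
    Wa n L θ A = w ∧ Fintype.card V ≤ M

/-! ### changing the values -/

/-- apply maps to the values -/
def ND.map (n : ℕ) (g : ℕ → ℚ → ℚ) (d : ND) : ND where
  T := d.T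
  lo j := if j < n + 1 then g j (d.lo j) else 0
  hi j := if j < n + 1 then g j (d.hi j) else 0

/-- the values which occur -/
def Vals (_n : ℕ) (d : ND) (C : Set (Prop × ND)) (j : ℕ) (q : ℚ) : Prop :=
  q = d.lo j ∨ q = d.hi j ∨ ∃ c ∈ C, q = c.2.lo j ∨ q = c.2.hi j

theorem LocAt.map {n L : ℕ} {θ : ℕ → ℕ → WithBot ℚ} {tn : ℕ} {d : ND} {C : Set (Prop × ND)}
    (h : LocAt n L θ tn d C) (g : ℕ → ℚ → ℚ)
    (hg : ∀ j < n + 1, ∀ p q, Vals n d C j p → Vals n d C j q → (p ≤ q ↔ g j p ≤ g j q))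
    (hθ : ∀ j < n + 1, ∀ p, Vals n d C j p → ∀ a < L, ((p : WithBot ℚ) ≤ θ j a ↔
      ((g j p : ℚ) : WithBot ℚ) ≤ θ j a)) :
    LocAt n L θ tn (d.map n g) ((fun c => (c.1, c.2.map n g)) '' C) := by
  have e0 : ((fun c : Prop × ND => (c.1, c.2.map n g)) '' C = ∅) = (C = ∅) := by
    rw [Set.image_eq_empty]
  have hne : ((fun c : Prop × ND => (c.1, c.2.map n g)) '' C ≠ ∅) = (C ≠ ∅) := by
    rw [ne_eq, e0]
  have v1 : ∀ j, Vals n d C j (d.lo j) := fun j => Or.inl rfl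
  have v2 : ∀ j, Vals n d C j (d.hi j) := fun j => Or.inr (Or.inl rfl)
  have v3 : ∀ j, ∀ c ∈ C, Vals n d C j (c.2.lo j) := fun j c hc => Or.inr (Or.inr ⟨c, hc, Or.inl rfl⟩)
  have v4 : ∀ j, ∀ c ∈ C, Vals n d C j (c.2.hi j) := fun j c hc => Or.inr (Or.inr ⟨c, hc, Or.inr rfl⟩)
  have el : ∀ (d : ND) j, j < n + 1 → (d.map n g).lo j = g j (d.lo j) := fun d j hj => if_pos hj
  have eh : ∀ (d : ND) j, j < n + 1 → (d.map n g).hi j = g j (d.hi j) := fun d j hj => if_pos hj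
  have eT : ∀ (d : ND), (d.map n g).T = d.T := fun d => rfl
  refine ⟨h.tn_lt, ?_, ?_, ?_, ?_, ?_, ?_, ?_, ?_, ?_, ?_, ?_, ?_, ?_, ?_, ?_, ?_, ?_, ?_⟩
  · intro j hj
    rw [el _ _ hj, eh _ _ hj]
    exact (hg j hj _ _ (v1 j) (v2 j)).1 (h.le j hj)
  · rw [e0]
    intro hC j hj
    rw [el _ _ hj, eh _ _ hj, h.leaf hC j hj]
  · rintro _ ⟨c, hc, rfl⟩
    simp only [Set.forall_mem_image]
    rw [h.sig c hc]
    refine forall_congr' fun c' => imp_congr_right fun hc' => ?_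
    rw [el _ _ h.tn_lt, eh _ _ h.tn_lt]
    exact hg _ h.tn_lt _ _ (v3 _ c' hc') (v4 _ c hc)
  · rw [hne]
    intro hC j hj
    obtain ⟨c, hc, hc1, hc2⟩ := h.lo_ex hC j hj
    exact ⟨_, ⟨c, hc, rfl⟩, hc1, by rw [el _ _ hj, el _ _ hj, hc2]⟩
  · rintro j hj _ ⟨c, hc, rfl⟩ hc1
    rw [el _ _ hj, el _ _ hj]
    exact (hg j hj _ _ (v1 j) (v3 j c hc)).1 (h.lo_le j hj c hc hc1)
  · rw [hne]
    intro hC j hj
    obtain ⟨c, hc, hc1, hc2⟩ := h.hi_ex hC j hj
    exact ⟨_, ⟨c, hc, rfl⟩, hc1, by rw [eh _ _ hj, eh _ _ hj, hc2]⟩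
  · rintro j hj _ ⟨c, hc, rfl⟩ hc1
    rw [eh _ _ hj, eh _ _ hj]
    exact (hg j hj _ _ (v4 j c hc) (v2 j)).1 (h.hi_le j hj c hc hc1)
  · exact h.t0
  · exact h.t2
  · rw [e0]
    exact h.t3
  · rw [hne]
    exact h.t4
  · intro a ha
    simpa only [Set.exists_mem_image, eT] using h.t5 a ha
  · intro i hi a ha
    simpa only [Set.exists_mem_image, eT] using h.t6 i hi a ha
  · intro a ha
    simpa only [Set.exists_mem_image, eT] using h.t7 a ha
  · intro i hi a ha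
    rw [e0, el _ _ hi]
    have ha' : a < L := lt_of_le_of_lt ((Nat.right_le_pair _ _).trans (Nat.right_le_pair _ _)) ha
    rw [← hθ i hi _ (v1 i) a ha']
    exact h.t8 i hi a ha
  · intro a ha
    simpa only [Set.exists_mem_image, eT] using h.t9 a ha
  · intro a ha
    simpa only [Set.exists_mem_image, eT] using h.t10 a ha
  · rw [e0]
    intro hC i hi a ha hT
    rw [el _ _ hi, ← hθ i hi _ (v1 i) a ha]
    exact h.g1 hC i hi a ha hT

/-- apply maps to the values of a labelled tree -/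
def Fr.map {V : Type} (n : ℕ) (g : ℕ → ℚ → ℚ) (A : Fr V) : Fr V where
  par := A.par
  dep := A.dep
  root := A.root
  sg := A.sg
  turn := A.turn
  nd x := (A.nd x).map n g

theorem Fr.map_C {V : Type} (n : ℕ) (g : ℕ → ℚ → ℚ) (A : Fr V) (x : V) :
    (A.map n g).C x = (fun c => (c.1, c.2.map n g)) '' A.C x := by
  ext c
  constructor
  · rintro ⟨y, hy, rfl⟩
    exact ⟨(A.sg y, A.nd y), ⟨y, hy, rfl⟩, rfl⟩
  · rintro ⟨_, ⟨y, hy, rfl⟩, rfl⟩
    exact ⟨y, hy, rfl⟩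

/-- the same position with respect to the thresholds -/
def SamePos (n L : ℕ) (θ : ℕ → ℕ → WithBot ℚ) (d d' : ND) : Prop :=
  ∀ j < n + 1, (d.lo j = d.hi j ↔ d'.lo j = d'.hi j) ∧
    (∀ a < L, ∀ t : ℚ, θ j a = t → (d.lo j < t ↔ d'.lo j < t) ∧ (d.lo j = t ↔ d'.lo j = t) ∧
      (d.hi j < t ↔ d'.hi j < t) ∧ (d.hi j = t ↔ d'.hi j = t))

theorem exists_map {n L : ℕ} {θ : ℕ → ℕ → WithBot ℚ} {d d' : ND} (h : SamePos n L θ d d')
    (hd : ∀ j < n + 1, d.lo j ≤ d.hi j) (hd' : ∀ j < n + 1, d'.lo j ≤ d'.hi j)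
    (B : ℕ → Finset ℚ) :
    ∃ g : ℕ → ℚ → ℚ, ∀ j < n + 1, g j (d.lo j) = d'.lo j ∧ g j (d.hi j) = d'.hi j ∧
      (∀ a < L, ∀ t : ℚ, θ j a = t → g j t = t) ∧
      StrictMonoOn (g j) ({q | q ∈ B j ∨ q = d.lo j ∨ q = d.hi j ∨ ∃ a < L, θ j a = q}) := by
  classical
  have key : ∀ j, ∃ g : ℚ → ℚ, j < n + 1 → g (d.lo j) = d'.lo j ∧ g (d.hi j) = d'.hi j ∧
      (∀ a < L, ∀ t : ℚ, θ j a = t → g t = t) ∧
      StrictMonoOn g ({q | q ∈ B j ∨ q = d.lo j ∨ q = d.hi j ∨ ∃ a < L, θ j a = q}) := by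
    intro j
    by_cases hj : j < n + 1
    swap
    · exact ⟨id, fun h => absurd h hj⟩
    obtain ⟨h1, h2⟩ := h j hj
    let Θ : Finset ℚ := (Finset.range L).biUnion (fun a => match θ j a with
      | none => ∅
      | some t => {t})
    have hΘ : ∀ q, q ∈ Θ ↔ ∃ a < L, θ j a = (q : WithBot ℚ) := by
      intro q
      simp only [Θ, Finset.mem_biUnion, Finset.mem_range]
      refine exists_congr fun a => and_congr_right fun _ => ?_
      rcases h : θ j a with _ | t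
      · exact ⟨fun h => absurd h (Finset.notMem_empty _), fun h => absurd h (by
          intro h
          exact WithBot.coe_ne_bot h.symm)⟩
      · change q ∈ ({t} : Finset ℚ) ↔ ((t : WithBot ℚ) = (q : WithBot ℚ))
        rw [Finset.mem_singleton, WithBot.coe_inj, eq_comm]
    let f : ℚ → ℚ := fun q => if q = d.lo j then d'.lo j else if q = d.hi j then d'.hi j else q
    have f1 : f (d.lo j) = d'.lo j := if_pos rfl
    have f2 : f (d.hi j) = d'.hi j := by
      by_cases e : d.hi j = d.lo j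
      · simp only [f, if_pos e]
        exact h1.1 e.symm
      · simp only [f, if_neg e, if_true]
    have f3 : ∀ t ∈ Θ, f t = t := by
      intro t ht
      obtain ⟨a, ha, hat⟩ := (hΘ t).1 ht
      have := h2 a ha t hat
      by_cases e : t = d.lo j
      · rw [show f t = d'.lo j from if_pos e]
        exact this.2.1.1 e.symm
      · by_cases e' : t = d.hi j
        · rw [e', f2, ← e']
          exact this.2.2.2.1 e'.symm
        · simp only [f, if_neg e, if_neg e']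
    have hf : StrictMonoOn f ((insert (d.lo j) (insert (d.hi j) Θ) : Finset ℚ) : Set ℚ) := by
      have hle := hd j hj
      have hle' := hd' j hj
      intro x hx y hy hxy
      simp only [Finset.coe_insert, Set.mem_insert_iff, Finset.mem_coe] at hx hy
      have hlt : d.lo j < d.hi j → d'.lo j < d'.hi j := fun h3 =>
        lt_of_le_of_ne hle' fun e => h3.ne (h1.2 e)
      rcases hx with rfl | rfl | hx <;> rcases hy with rfl | rfl | hy
      · exact absurd hxy (lt_irrefl _)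
      · rw [f1, f2]
        exact hlt hxy
      · rw [f1, f3 y hy]
        obtain ⟨a, ha, hat⟩ := (hΘ y).1 hy
        exact (h2 a ha y hat).1.1 hxy
      · exact absurd hxy (not_lt.2 hle)
      · exact absurd hxy (lt_irrefl _)
      · rw [f2, f3 y hy]
        obtain ⟨a, ha, hat⟩ := (hΘ y).1 hy
        exact (h2 a ha y hat).2.2.1.1 hxy
      · rw [f1, f3 x hx]
        obtain ⟨a, ha, hat⟩ := (hΘ x).1 hx
        have := h2 a ha x hat
        by_contra hn
        rcases lt_or_eq_of_le (not_lt.1 hn) with h4 | h4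
        · exact absurd (this.1.2 h4) (not_lt.2 hxy.le)
        · exact absurd (this.2.1.2 h4) hxy.ne'
      · rw [f2, f3 x hx]
        obtain ⟨a, ha, hat⟩ := (hΘ x).1 hx
        have := h2 a ha x hat
        by_contra hn
        rcases lt_or_eq_of_le (not_lt.1 hn) with h4 | h4
        · exact absurd (this.2.2.1.2 h4) (not_lt.2 hxy.le)
        · exact absurd (this.2.2.2.2 h4) hxy.ne'
      · rw [f3 x hx, f3 y hy]
        exact hxy
    obtain ⟨g, hg1, hg2⟩ := ext_mono _ f hf (B j)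
    refine ⟨g, fun _ => ⟨?_, ?_, ?_, ?_⟩⟩
    · rw [hg1 _ (by simp), f1]
    · rw [hg1 _ (by simp), f2]
    · intro a ha t hat
      have ht : t ∈ Θ := (hΘ t).2 ⟨a, ha, hat⟩
      rw [hg1 _ (by simp [ht]), f3 t ht]
    · refine hg2.mono ?_
      rintro q (hq | hq | hq | hq)
      · simp [hq]
      · simp [hq]
      · simp [hq]
      · simp [(hΘ q).2 hq]
  choose g hg using key
  exact ⟨g, fun j hj => hg j hj⟩

end Pool.Agent.H88R3.BA
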