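import Mathlib
import Pool.Agent.H88R3.BA.Small

set_option autoImplicit false

namespace Pool.Agent.H88R3.BA

open Relation

theorem Sma.mono {n L : ℕ} {θ : ℕ → ℕ → WithBot ℚ} {M M' : ℕ} (hM : M ≤ M') {d : ND}
    {w : ℕ → ℕ → Prop} (h : Sma n L θ M d w) : Sma n L θ M' d w := by
  obtain ⟨V, f, A, h1, h2, h3, h4⟩ := h
  exact ⟨V, f, A, h1, h2, h3, h4.trans hM⟩

theorem Sma.remap {n L : ℕ} {θ : ℕ → ℕ → WithBot ℚ} {M : ℕ} {d d' : ND}
    {w : ℕ → ℕ → Prop} (h : Sma n L θ M d w) (hT : d.T = d'.T) (hpos : SamePos n L θ d d')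
    (hd : ∀ j < n + 1, d.lo j ≤ d.hi j) (hd' : ∀ j < n + 1, d'.lo j ≤ d'.hi j)
    (hn : ∀ j, ¬ j < n + 1 → d'.lo j = 0 ∧ d'.hi j = 0) : Sma n L θ M d' w := by
  classical
  obtain ⟨V, f, A, h1, h2, h3, h4⟩ := h
  obtain ⟨g, hg⟩ := exists_map hpos hd hd'
    (fun j => Finset.univ.image (fun v => (A.nd v).lo j) ∪ Finset.univ.image (fun v => (A.nd v).hi j))
  have hv : ∀ j, ∀ x p, Vals n (A.nd x) (A.C x) j p →
      p ∈ (Finset.univ.image (fun v => (A.nd v).lo j) ∪ Finset.univ.image (fun v => (A.nd v).hi j)) := by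
    intro j x p hp
    simp only [Finset.mem_union, Finset.mem_image, Finset.mem_univ, true_and]
    rcases hp with rfl | rfl | ⟨c, ⟨y, -, rfl⟩, rfl | rfl⟩
    · exact Or.inl ⟨x, rfl⟩
    · exact Or.inr ⟨x, rfl⟩
    · exact Or.inl ⟨y, rfl⟩
    · exact Or.inr ⟨y, rfl⟩
  have hθ : ∀ j < n + 1, ∀ p, p ∈ (Finset.univ.image (fun v => (A.nd v).lo j) ∪
      Finset.univ.image (fun v => (A.nd v).hi j)) → ∀ a < L,
      ((p : WithBot ℚ) ≤ θ j a ↔ ((g j p : ℚ) : WithBot ℚ) ≤ θ j a) ∧
      ((p : WithBot ℚ) = θ j a ↔ ((g j p : ℚ) : WithBot ℚ) = θ j a) := by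
    intro j hj p hp a ha
    obtain ⟨-, -, g3, g4⟩ := hg j hj
    rcases ht : θ j a with _ | t
    · exact ⟨⟨fun h => absurd h (by intro h; exact absurd (le_bot_iff.1 h) WithBot.coe_ne_bot),
        fun h => absurd h (by intro h; exact absurd (le_bot_iff.1 h) WithBot.coe_ne_bot)⟩,
        ⟨fun h => absurd h WithBot.coe_ne_bot, fun h => absurd h WithBot.coe_ne_bot⟩⟩
    · have e := g3 a ha t ht
      have hpS : p ∈ {q | q ∈ (Finset.univ.image (fun v => (A.nd v).lo j) ∪
          Finset.univ.image (fun v => (A.nd v).hi j)) ∨ q = d.lo j ∨ q = d.hi j ∨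
          ∃ a < L, θ j a = (q : WithBot ℚ)} := Or.inl hp
      have htS : t ∈ {q | q ∈ (Finset.univ.image (fun v => (A.nd v).lo j) ∪
          Finset.univ.image (fun v => (A.nd v).hi j)) ∨ q = d.lo j ∨ q = d.hi j ∨
          ∃ a < L, θ j a = (q : WithBot ℚ)} := Or.inr (Or.inr (Or.inr ⟨a, ha, ht⟩))
      constructor
      · change ((p : WithBot ℚ) ≤ (t : WithBot ℚ)) ↔ (((g j p : ℚ) : WithBot ℚ) ≤ (t : WithBot ℚ))
        rw [WithBot.coe_le_coe, WithBot.coe_le_coe]
        conv_rhs => rw [← e]
        exact (g4.le_iff_le hpS htS).symm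
      · change ((p : WithBot ℚ) = (t : WithBot ℚ)) ↔ (((g j p : ℚ) : WithBot ℚ) = (t : WithBot ℚ))
        rw [WithBot.coe_inj, WithBot.coe_inj]
        conv_rhs => rw [← e]
        exact (g4.injOn.eq_iff hpS htS).symm
  refine ⟨V, f, A.map n g, ⟨h1.root, h1.dep, fun x => ?_⟩, ?_, ?_, h4⟩
  · rw [Fr.map_C]
    refine (h1.loc x).map g ?_ ?_
    · intro j hj p q hp hq
      obtain ⟨-, -, g3, g4⟩ := hg j hj
      exact (g4.le_iff_le (Or.inl (hv j x p hp)) (Or.inl (hv j x q hq))).symm
    · intro j hj p hp a ha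
      exact (hθ j hj p (hv j x p hp) a ha).1
  · change (A.nd A.root).map n g = d'
    rw [h2]
    ext j
    · exact iff_of_eq (congrFun hT j)
    · by_cases hj : j < n + 1
      · exact (if_pos hj).trans (hg j hj).1
      · exact (if_neg hj).trans (hn j hj).1.symm
    · by_cases hj : j < n + 1
      · exact (if_pos hj).trans (hg j hj).2.1
      · exact (if_neg hj).trans (hn j hj).2.symm
  · rw [← h3]
    funext i a
    refine propext (and_congr_right fun hi => and_congr_right fun ha => exists_congr fun v => ?_)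
    rw [Fr.map_C, Set.image_eq_empty]
    refine and_congr_right fun _ => and_congr_right fun _ => ?_
    have e : ((A.map n g).nd v).lo i = g i ((A.nd v).lo i) := if_pos hi
    rw [e]
    exact (hθ i hi _ (by simp) a ha).2.symm

/-- composition -/
theorem Sma.compose {n L : ℕ} {θ : ℕ → ℕ → WithBot ℚ} {M : ℕ} {K : Type} [Fintype K]
    (f : K → Prop) (D : K → ND) (w : K → ℕ → ℕ → Prop) (hK : ∀ z, Sma n L θ M (D z) (w z))
    (tn : ℕ) (d : ND) (hd : LocAt n L θ tn d {c | ∃ z, c = (f z, D z)}) :
    Sma n L θ (1 + Fintype.card K * M) d (fun i a => i < n + 1 ∧ a < L ∧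
      ((({c : Prop × ND | ∃ z, c = (f z, D z)} : Set (Prop × ND)) = ∅ ∧ d.T a ∧
        (d.lo i : WithBot ℚ) = θ i a) ∨ ∃ z, w z i a)) := by
  classical
  choose V fV A hOk hnd hWa hcard using hK
  let A' : Fr (Option (Σ z, V z)) :=
    { par := fun x => match x with
        | none => none
        | some p => some (((A p.1).par p.2).map (fun u => ⟨p.1, u⟩))
      dep := fun x => match x with
        | none => 0
        | some p => (A p.1).dep p.2 + 1
      root := none
      sg := fun x => match x with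
        | none => False
        | some p => match (A p.1).par p.2 with
          | none => f p.1
          | some _ => (A p.1).sg p.2
      turn := fun x => match x with
        | none => tn
        | some p => (A p.1).turn p.2
      nd := fun x => match x with
        | none => d
        | some p => (A p.1).nd p.2 }
  have hC0 : A'.C none = {c | ∃ z, c = (f z, D z)} := by
    ext c
    constructor
    · rintro ⟨y, hy, rfl⟩
      rcases y with _ | ⟨z, v⟩
      · exact absurd hy (by simp [A'])
      · have h1 : (A z).par v = none := by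
          have : some (((A z).par v).map (fun u => (⟨z, u⟩ : Σ z, V z))) = some none := hy
          simpa using this
        refine ⟨z, ?_⟩
        have h2 : v = (A z).root := ((hOk z).root v).1 h1
        have e1 : A'.sg (some ⟨z, v⟩) = f z := by
          simp only [A', h1]
        have e2 : A'.nd (some ⟨z, v⟩) = D z := by
          rw [← hnd z, ← h2]
        rw [e1, e2]
    · rintro ⟨z, rfl⟩
      have h1 : (A z).par (A z).root = none := ((hOk z).root _).2 rfl
      refine ⟨some ⟨z, (A z).root⟩, ?_, ?_⟩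
      · change some (((A z).par (A z).root).map (fun u => (⟨z, u⟩ : Σ z, V z))) = some none
        rw [h1]
        rfl
      · have e1 : A'.sg (some ⟨z, (A z).root⟩) = f z := by
          simp only [A', h1]
        have e2 : A'.nd (some ⟨z, (A z).root⟩) = D z := hnd z
        rw [e1, e2]
  have hC1 : ∀ z u, A'.C (some ⟨z, u⟩) = (A z).C u := by
    intro z u
    ext c
    constructor
    · rintro ⟨y, hy, rfl⟩
      rcases y with _ | ⟨z', v⟩
      · exact absurd hy (by simp [A'])
      · have h1 : ((A z').par v).map (fun u => (⟨z', u⟩ : Σ z, V z)) = some ⟨z, u⟩ := by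
          have : some (((A z').par v).map (fun u => (⟨z', u⟩ : Σ z, V z))) = some (some ⟨z, u⟩) := hy
          simpa using this
        rcases h2 : (A z').par v with _ | u'
        · rw [h2] at h1
          exact absurd h1 (by simp)
        · rw [h2] at h1
          have h3 : (⟨z', u'⟩ : Σ z, V z) = ⟨z, u⟩ := by simpa using h1
          cases h3
          refine ⟨v, h2, ?_⟩
          have e1 : A'.sg (some ⟨z, v⟩) = (A z).sg v := by
            simp only [A', h2]
          rw [e1]
    · rintro ⟨v, hv, rfl⟩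
      refine ⟨some ⟨z, v⟩, ?_, ?_⟩
      · change some (((A z).par v).map (fun u => (⟨z, u⟩ : Σ z, V z))) = some (some ⟨z, u⟩)
        rw [hv]
        rfl
      · have e1 : A'.sg (some ⟨z, v⟩) = (A z).sg v := by
          simp only [A', hv]
        rw [e1]
  refine ⟨Option (Σ z, V z), inferInstance, A', ⟨?_, ?_, ?_⟩, rfl, ?_, ?_⟩
  · rintro (_ | p)
    · exact ⟨fun _ => rfl, fun _ => rfl⟩
    · exact ⟨fun h => absurd h (by simp [A']), fun h => absurd h (by simp [A'])⟩
  · intro u v huv
    rcases v with _ | ⟨z, v⟩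
    · exact absurd huv (by simp [A'])
    · rcases u with _ | ⟨z', u⟩
      · exact Nat.succ_pos _
      · have h1 : ((A z).par v).map (fun u => (⟨z, u⟩ : Σ z, V z)) = some ⟨z', u⟩ := by
          have : some (((A z).par v).map (fun u => (⟨z, u⟩ : Σ z, V z))) = some (some ⟨z', u⟩) := huv
          simpa using this
        rcases h2 : (A z).par v with _ | u'
        · rw [h2] at h1
          exact absurd h1 (by simp)
        · rw [h2] at h1
          have h3 : (⟨z, u'⟩ : Σ z, V z) = ⟨z', u⟩ := by simpa using h1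
          cases h3
          exact Nat.succ_lt_succ ((hOk z).dep _ v h2)
  · rintro (_ | ⟨z, u⟩)
    · rw [hC0]
      exact hd
    · rw [hC1]
      exact (hOk z).loc u
  · funext i a
    refine propext (and_congr_right fun hi => and_congr_right fun ha => ?_)
    constructor
    · rintro ⟨_ | ⟨z, v⟩, h1, h2, h3⟩
      · rw [hC0] at h1
        exact Or.inl ⟨h1, h2, h3⟩
      · rw [hC1] at h1
        refine Or.inr ⟨z, ?_⟩
        rw [← hWa z]
        exact ⟨hi, ha, v, h1, h2, h3⟩
    · rintro (⟨h1, h2, h3⟩ | ⟨z, hz⟩)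
      · exact ⟨none, by rw [hC0]; exact h1, h2, h3⟩
      · rw [← hWa z] at hz
        obtain ⟨-, -, v, h1, h2, h3⟩ := hz
        exact ⟨some ⟨z, v⟩, by rw [hC1]; exact h1, h2, h3⟩
  · rw [Fintype.card_option, Fintype.card_sigma]
    have : ∑ z, Fintype.card (V z) ≤ ∑ _z : K, M := Finset.sum_le_sum fun z _ => hcard z
    rw [Finset.sum_const, Finset.card_univ, smul_eq_mul] at this
    omega

end Pool.Agent.H88R3.BA
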