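import Mathlib
import Pool.Agent.H88R3.BA.Small2

set_option autoImplicit false

namespace Pool.Agent.H88R3.BA

open Relation

theorem LocAt.sub {n L : ℕ} {θ : ℕ → ℕ → WithBot ℚ} {tn : ℕ} {d : ND} {C C' : Set (Prop × ND)}
    (h : LocAt n L θ tn d C) (hsub : C' ⊆ C)
    (hkey : ∀ c ∈ C, ∃ c' ∈ C', (∀ a < L, c.2.T a ↔ c'.2.T a) ∧ (c.1 ↔ c'.1))
    (hlo : C ≠ ∅ → ∀ j < n + 1, ∃ c ∈ C', c.1 ∧ c.2.lo j = d.lo j)
    (hhi : C ≠ ∅ → ∀ j < n + 1, ∃ c ∈ C', c.1 ∧ c.2.hi j = d.hi j)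
    (hmax : C ≠ ∅ → ∃ c ∈ C', ∀ c' ∈ C, c'.2.lo tn ≤ c.2.lo tn) : LocAt n L θ tn d C' := by
  have he : C' = ∅ ↔ C = ∅ := by
    constructor
    · intro e
      by_contra hn
      obtain ⟨c, hc⟩ := Set.nonempty_iff_ne_empty.2 hn
      obtain ⟨c', hc', -⟩ := hkey c hc
      rw [e] at hc'
      exact hc'
    · rintro rfl
      exact Set.subset_empty_iff.1 hsub
  have hex : ∀ Q : Prop → (ℕ → Prop) → Prop,
      (∀ p p' : Prop, ∀ T T' : ℕ → Prop, (p ↔ p') → (∀ a < L, T a ↔ T' a) → Q p T → Q p' T') →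
      ((∃ c ∈ C, Q c.1 c.2.T) ↔ ∃ c ∈ C', Q c.1 c.2.T) := by
    intro Q hQ
    constructor
    · rintro ⟨c, hc, hq⟩
      obtain ⟨c', hc', h1, h2⟩ := hkey c hc
      exact ⟨c', hc', hQ _ _ _ _ h2 h1 hq⟩
    · rintro ⟨c, hc, hq⟩
      exact ⟨c, hsub hc, hq⟩
  refine ⟨h.tn_lt, h.le, ?_, ?_, ?_, ?_, ?_, ?_, h.t0, h.t2, ?_, ?_, ?_, ?_, ?_, ?_, ?_, ?_, ?_⟩
  · rw [he]
    exact h.leaf
  · intro c hc
    rw [h.sig c (hsub hc)]
    constructor
    · intro h1 c' hc'
      exact h1 c' (hsub hc')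
    · intro h1 c' hc'
      obtain ⟨m, hm, hm'⟩ := hmax (Set.nonempty_iff_ne_empty.1 ⟨c', hc'⟩)
      exact (hm' c' hc').trans (h1 m hm)
  · intro h1
    exact hlo (fun e => h1 (he.2 e))
  · intro j hj c hc
    exact h.lo_le j hj c (hsub hc)
  · intro h1
    exact hhi (fun e => h1 (he.2 e))
  · intro j hj c hc
    exact h.hi_le j hj c (hsub hc)
  · rw [he]
    exact h.t3
  · intro i hi hL
    rw [ne_eq, he]
    exact h.t4 i hi hL
  · intro a ha
    have haL : a < L := lt_of_le_of_lt (Nat.right_le_pair _ _) ha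
    rw [h.t5 a ha]
    exact hex (fun _ T => T a) fun _ _ T T' _ hT ht => (hT a haL).1 ht
  · intro i hi a ha
    have haL : a < L := lt_of_le_of_lt ((Nat.right_le_pair _ _).trans (Nat.right_le_pair _ _)) ha
    rw [h.t6 i hi a ha]
    exact and_congr_right fun _ => hex (fun _ T => T a) fun _ _ T T' _ hT ht => (hT a haL).1 ht
  · intro a ha
    have haL : a < L := lt_of_le_of_lt (Nat.right_le_pair _ _) ha
    rw [h.t7 a ha]
    exact hex (fun _ T => T a ∨ T (Nat.pair 7 a)) fun _ _ T T' _ hT ht =>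
      ht.imp (hT a haL).1 (hT _ ha).1
  · intro i hi a ha
    rw [he]
    exact h.t8 i hi a ha
  · intro a ha
    have haL : a < L := lt_of_le_of_lt (Nat.right_le_pair _ _) ha
    rw [h.t9 a ha]
    exact hex (fun p T => p ∧ T a) fun _ _ T T' hp hT ht => ⟨hp.1 ht.1, (hT a haL).1 ht.2⟩
  · intro a ha
    rw [h.t10 a ha]
    exact or_congr_right (hex (fun p T => p ∧ T (Nat.pair 10 a))
      fun _ _ T T' hp hT ht => ⟨hp.1 ht.1, (hT _ ha).1 ht.2⟩)
  · rw [he]
    exact h.g1

theorem exists_reps {ι V : Type} [Fintype ι] (P : ι → V → Prop) :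
    ∃ K : Finset V, (∀ i, (∃ z, P i z) → ∃ z ∈ K, P i z) ∧ (∀ z ∈ K, ∃ i, P i z) ∧
      K.card ≤ Fintype.card ι := by
  classical
  refine ⟨Finset.univ.biUnion (fun i => if h : ∃ z, P i z then {h.choose} else ∅), ?_, ?_, ?_⟩
  · intro i hi
    refine ⟨hi.choose, ?_, hi.choose_spec⟩
    rw [Finset.mem_biUnion]
    exact ⟨i, Finset.mem_univ _, by rw [dif_pos hi]; exact Finset.mem_singleton_self _⟩
  · intro z hz
    rw [Finset.mem_biUnion] at hz
    obtain ⟨i, -, hi⟩ := hz
    by_cases h : ∃ z, P i z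
    · rw [dif_pos h, Finset.mem_singleton] at hi
      exact ⟨i, hi ▸ h.choose_spec⟩
    · rw [dif_neg h] at hi
      exact absurd hi (Finset.notMem_empty _)
  · refine (Finset.card_biUnion_le).trans ?_
    calc _ ≤ ∑ _i : ι, 1 := Finset.sum_le_sum fun i _ => by
          split_ifs
          · exact (Finset.card_singleton _).le
          · exact Nat.zero_le _
      _ = Fintype.card ι := by simp

open Classical in
/-- position with respect to a threshold -/
noncomputable def posn (q : ℚ) (t : WithBot ℚ) : Fin 3 :=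
  if (q : WithBot ℚ) < t then 0 else if (q : WithBot ℚ) = t then 1 else 2

theorem posn_zero (q t : ℚ) : posn q t = 0 ↔ q < t := by
  unfold posn
  simp only [WithBot.coe_lt_coe]
  by_cases h : q < t
  · rw [if_pos h]
    exact iff_of_true rfl h
  · rw [if_neg h]
    refine iff_of_false ?_ h
    split_ifs <;> decide

theorem posn_one (q t : ℚ) : posn q t = 1 ↔ q = t := by
  unfold posn
  simp only [WithBot.coe_lt_coe, WithBot.coe_inj]
  by_cases h : q < t
  · rw [if_pos h]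
    exact iff_of_false (by decide) h.ne
  · rw [if_neg h]
    by_cases h' : q = t
    · rw [if_pos h']
      exact iff_of_true rfl h'
    · rw [if_neg h']
      exact iff_of_false (by decide) h'

theorem posn_eq {q q' : ℚ} {t : ℚ} (h : posn q t = posn q' t) :
    (q < t ↔ q' < t) ∧ (q = t ↔ q' = t) := by
  rw [← posn_zero, ← posn_zero, ← posn_one, ← posn_one, h]
  exact ⟨Iff.rfl, Iff.rfl⟩

/-- summaries -/
abbrev Sm (n L : ℕ) : Type :=
  (Fin L → Prop) × (Fin (n + 1) → (Fin L → Fin 3) × (Fin L → Fin 3) × Prop) ×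
    (Fin (n + 1) → Fin L → Prop)

theorem card_Sm (n L : ℕ) : Fintype.card (Sm n L) = Sd n L := by
  simp only [Sm, Fintype.card_prod, Fintype.card_fun, Fintype.card_fin, Fintype.card_prop, Sd]
  ring

/-- the summary of a node -/
noncomputable def smy {V : Type} (n L : ℕ) (θ : ℕ → ℕ → WithBot ℚ) (A : Fr V) (x : V) :
    Sm n L :=
  (fun a => (A.nd x).T a, fun j => (fun a => posn ((A.nd x).lo j) (θ j a),
    fun a => posn ((A.nd x).hi j) (θ j a), (A.nd x).lo j = (A.nd x).hi j),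
    fun i a => Wt n L θ A x i a)

theorem samePos_of_smy {V : Type} {n L : ℕ} {θ : ℕ → ℕ → WithBot ℚ} {A : Fr V} {x y : V}
    (h : smy n L θ A x = smy n L θ A y) : SamePos n L θ (A.nd x) (A.nd y) := by
  intro j hj
  have h1 := congrFun (congrArg (fun s : Sm n L => s.2.1) h) ⟨j, hj⟩
  simp only [smy, Prod.mk.injEq] at h1
  obtain ⟨h2, h3, h4⟩ := h1
  refine ⟨iff_of_eq h4, fun a ha t ht => ?_⟩
  have h5 := congrFun h2 ⟨a, ha⟩
  have h6 := congrFun h3 ⟨a, ha⟩
  simp only [ht] at h5 h6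
  exact ⟨(posn_eq h5).1, (posn_eq h5).2, (posn_eq h6).1, (posn_eq h6).2⟩

theorem small_main {V : Type} [Finite V] {n L : ℕ} {θ : ℕ → ℕ → WithBot ℚ} {A : Fr V}
    (hA : A.Ok n L θ) (hT : ∀ x a, L ≤ a → ¬ (A.nd x).T a)
    (hv : ∀ x j, ¬ j < n + 1 → (A.nd x).lo j = 0 ∧ (A.nd x).hi j = 0) :
    ∀ k, ∀ S : Finset (Sm n L), S.card ≤ k → ∀ x,
      (∀ y, ReflTransGen (fun u w => A.par w = some u) x y → smy n L θ A y ∈ S) →
      Sma n L θ (Wd n L ^ k) (A.nd x) (Wt n L θ A x) := by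
  classical
  intro k
  induction k with
  | zero =>
    intro S hS x hx
    have := hx x .refl
    rw [Finset.card_eq_zero.1 (Nat.le_zero.1 hS)] at this
    exact absurd this (Finset.notMem_empty _)
  | succ k ih =>
    intro S hS x hx
    -- a deepest node with the same summary
    have hne : Nonempty {v : V // ReflTransGen (fun u w => A.par w = some u) x v ∧
        smy n L θ A v = smy n L θ A x} := ⟨⟨x, .refl, rfl⟩⟩
    obtain ⟨⟨v, hxv, hvx⟩, hmax⟩ := Finite.exists_max (fun v : {v : V //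
      ReflTransGen (fun u w => A.par w = some u) x v ∧ smy n L θ A v = smy n L θ A x} =>
      A.dep v.1)
    have hdep : ∀ a b, ReflTransGen (fun u w => A.par w = some u) a b → A.dep a ≤ A.dep b := by
      intro a b hab
      induction hab with
      | refl => exact le_rfl
      | tail _ h2 ih => exact ih.trans (hA.dep _ _ h2).le
    have hch : ∀ z, A.par z = some v → ∀ y,
        ReflTransGen (fun u w => A.par w = some u) z y →
        smy n L θ A y ∈ S.erase (smy n L θ A x) := by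
      intro z hz y hzy
      have h1 : ReflTransGen (fun u w => A.par w = some u) v y := hzy.head hz
      have h2 : A.dep v < A.dep y := lt_of_lt_of_le (hA.dep _ _ hz) (hdep z y hzy)
      refine Finset.mem_erase.2 ⟨fun e => ?_, hx y (hxv.trans h1)⟩
      have h3 := hmax ⟨y, hxv.trans h1, e⟩
      simp only at h3
      omega
    have hSk : (S.erase (smy n L θ A x)).card ≤ k := by
      rw [Finset.card_erase_of_mem (hx x .refl)]
      omega
    have ihz : ∀ z, A.par z = some v →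
        Sma n L θ (Wd n L ^ k) (A.nd z) (Wt n L θ A z) :=
      fun z hz => ih _ hSk z (hch z hz)
    -- the representatives
    let ι : Type := ((Fin L → Prop) × Prop × (Fin (n + 1) → Fin L → Prop)) ⊕
      (Fin (n + 1) ⊕ (Fin (n + 1) ⊕ Unit))
    let P : ι → V → Prop := fun i z => A.par z = some v ∧ (match i with
      | .inl κ => ((fun a => (A.nd z).T a : Fin L → Prop), A.sg z,
          (fun i a => Wt n L θ A z i a : Fin (n + 1) → Fin L → Prop)) = κ
      | .inr (.inl j) => A.sg z ∧ (A.nd z).lo j = (A.nd v).lo j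
      | .inr (.inr (.inl j)) => A.sg z ∧ (A.nd z).hi j = (A.nd v).hi j
      | .inr (.inr (.inr _)) => ∀ z', A.par z' = some v →
          (A.nd z').lo (A.turn v) ≤ (A.nd z).lo (A.turn v))
    obtain ⟨K, hK1, hK2, hK3⟩ := exists_reps P
    have hKc : ∀ z ∈ K, A.par z = some v := by
      intro z hz
      obtain ⟨i, hi⟩ := hK2 z hz
      exact hi.1
    have hcard : Fintype.card ι + 1 = Wd n L := by
      simp only [ι, Fintype.card_sum, Fintype.card_prod, Fintype.card_fun, Fintype.card_fin,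
        Fintype.card_prop, Fintype.card_unit, Wd]
      ring
    have hkey : ∀ z, A.par z = some v → ∃ z' ∈ K, (∀ a < L, (A.nd z).T a ↔ (A.nd z').T a) ∧
        (A.sg z ↔ A.sg z') ∧ Wt n L θ A z = Wt n L θ A z' := by
      intro z hz
      obtain ⟨z', hz', hz'1, hz'2⟩ := hK1 (.inl ((fun a => (A.nd z).T a : Fin L → Prop), A.sg z,
          (fun i a => Wt n L θ A z i a : Fin (n + 1) → Fin L → Prop))) ⟨z, hz, rfl⟩
      simp only [Prod.mk.injEq] at hz'2
      obtain ⟨e1, e2, e3⟩ := hz'2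
      refine ⟨z', hz', fun a ha => ?_, ?_, ?_⟩
      · exact (iff_of_eq (congrFun e1 ⟨a, ha⟩)).symm
      · exact (iff_of_eq e2).symm
      · funext i a
        by_cases hi : i < n + 1
        · by_cases ha : a < L
          · exact (congrFun (congrFun e3 ⟨i, hi⟩) ⟨a, ha⟩).symm
          · exact propext ⟨fun h => absurd h.2.1 ha, fun h => absurd h.2.1 ha⟩
        · exact propext ⟨fun h => absurd h.1 hi, fun h => absurd h.1 hi⟩
    have hloc := hA.loc v
    have hCne : A.C v ≠ ∅ → ∃ z, A.par z = some v := by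
      intro h
      obtain ⟨c, y, hy, -⟩ := Set.nonempty_iff_ne_empty.2 h
      exact ⟨y, hy⟩
    have hloc' : LocAt n L θ (A.turn v) (A.nd v)
        {c | ∃ z : K, c = (A.sg z.1, A.nd z.1)} := by
      refine hloc.sub ?_ ?_ ?_ ?_ ?_
      · rintro _ ⟨z, rfl⟩
        exact ⟨z.1, hKc z.1 z.2, rfl⟩
      · rintro _ ⟨z, hz, rfl⟩
        obtain ⟨z', hz', h1, h2, -⟩ := hkey z hz
        exact ⟨_, ⟨⟨z', hz'⟩, rfl⟩, h1, h2⟩
      · intro hC j hj
        obtain ⟨_, ⟨z, hz, rfl⟩, h1, h2⟩ := hloc.lo_ex hC j hj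
        obtain ⟨z', hz', hz'1, hz'2⟩ := hK1 (.inr (.inl ⟨j, hj⟩)) ⟨z, hz, h1, h2⟩
        exact ⟨_, ⟨⟨z', hz'⟩, rfl⟩, hz'2.1, hz'2.2⟩
      · intro hC j hj
        obtain ⟨_, ⟨z, hz, rfl⟩, h1, h2⟩ := hloc.hi_ex hC j hj
        obtain ⟨z', hz', hz'1, hz'2⟩ := hK1 (.inr (.inr (.inl ⟨j, hj⟩))) ⟨z, hz, h1, h2⟩
        exact ⟨_, ⟨⟨z', hz'⟩, rfl⟩, hz'2.1, hz'2.2⟩
      · intro hC
        obtain ⟨z0, hz0⟩ := hCne hC
        have : Nonempty {z // A.par z = some v} := ⟨⟨z0, hz0⟩⟩
        obtain ⟨⟨m, hm⟩, hm'⟩ := Finite.exists_max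
          (fun z : {z // A.par z = some v} => (A.nd z.1).lo (A.turn v))
        obtain ⟨z', hz', hz'1, hz'2⟩ := hK1 (.inr (.inr (.inr ())))
          ⟨m, hm, fun z hz => hm' ⟨z, hz⟩⟩
        refine ⟨_, ⟨⟨z', hz'⟩, rfl⟩, ?_⟩
        rintro _ ⟨z, hz, rfl⟩
        exact hz'2 z hz
    have hcomp := Sma.compose (K := K) (fun z => A.sg z.1) (fun z => A.nd z.1)
      (fun z => Wt n L θ A z.1) (fun z => ihz z.1 (hKc z.1 z.2)) (A.turn v) (A.nd v) hloc'
    -- the witnesses
    have hCe : ({c : Prop × ND | ∃ z : K, c = (A.sg z.1, A.nd z.1)} = ∅) ↔ A.C v = ∅ := by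
      constructor
      · intro e
        by_contra hn
        obtain ⟨z, hz⟩ := hCne hn
        obtain ⟨z', hz', -⟩ := hkey z hz
        have : (A.sg z', A.nd z') ∈ ({c : Prop × ND | ∃ z : K, c = (A.sg z.1, A.nd z.1)}) :=
          ⟨⟨z', hz'⟩, rfl⟩
        rw [e] at this
        exact this
      · intro e
        rw [Set.eq_empty_iff_forall_notMem]
        rintro _ ⟨z, rfl⟩
        have : (A.sg z.1, A.nd z.1) ∈ A.C v := ⟨z.1, hKc z.1 z.2, rfl⟩
        rw [e] at this
        exact this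
    have hW : (fun i a => i < n + 1 ∧ a < L ∧
        ((({c : Prop × ND | ∃ z : K, c = (A.sg z.1, A.nd z.1)} : Set (Prop × ND)) = ∅ ∧
          (A.nd v).T a ∧ ((A.nd v).lo i : WithBot ℚ) = θ i a) ∨
          ∃ z : K, Wt n L θ A z.1 i a)) = Wt n L θ A x := by
      have h1 : Wt n L θ A x = Wt n L θ A v := by
        have h2 := congrArg (fun s : Sm n L => s.2.2) hvx
        simp only [smy] at h2
        funext i a
        by_cases hi : i < n + 1
        · by_cases ha : a < L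
          · exact (congrFun (congrFun h2 ⟨i, hi⟩) ⟨a, ha⟩).symm
          · exact propext ⟨fun h => absurd h.2.1 ha, fun h => absurd h.2.1 ha⟩
        · exact propext ⟨fun h => absurd h.1 hi, fun h => absurd h.1 hi⟩
      rw [h1]
      funext i a
      refine propext (and_congr_right fun hi => and_congr_right fun ha => ?_)
      rw [hCe]
      constructor
      · rintro (⟨h2, h3, h4⟩ | ⟨z, hz⟩)
        · exact ⟨v, .refl, h2, h3, h4⟩
        · obtain ⟨-, -, u, hu, h2⟩ := hz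
          exact ⟨u, hu.head (hKc z.1 z.2), h2⟩
      · rintro ⟨u, hu, h2⟩
        rcases ReflTransGen.cases_head hu with e | ⟨z, hz, hzu⟩
        · subst e
          exact Or.inl h2
        · obtain ⟨z', hz', -, -, h3⟩ := hkey z hz
          refine Or.inr ⟨⟨z', hz'⟩, ?_⟩
          have : Wt n L θ A z i a := ⟨hi, ha, u, hzu, h2⟩
          rw [h3] at this
          exact this
    rw [hW] at hcomp
    have hbound : 1 + Fintype.card K * Wd n L ^ k ≤ Wd n L ^ (k + 1) := by
      have h1 : Fintype.card K ≤ Fintype.card ι := by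
        rw [Fintype.card_coe]
        exact hK3
      have h2 : 1 ≤ Wd n L ^ k := Nat.one_le_pow _ _ (by rw [← hcard]; omega)
      calc 1 + Fintype.card K * Wd n L ^ k ≤ Wd n L ^ k + Fintype.card ι * Wd n L ^ k :=
            Nat.add_le_add h2 (Nat.mul_le_mul_right _ h1)
        _ = (Fintype.card ι + 1) * Wd n L ^ k := by ring
        _ = Wd n L ^ (k + 1) := by rw [hcard]; ring
    refine (hcomp.mono hbound).remap ?_ (samePos_of_smy hvx) (hA.loc v).le (hA.loc x).le (hv x)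
    funext a
    by_cases ha : a < L
    · exact congrFun (congrArg (fun s : Sm n L => s.1) hvx) ⟨a, ha⟩
    · exact propext ⟨fun h => absurd h (hT v a (not_lt.1 ha)),
        fun h => absurd h (hT x a (not_lt.1 ha))⟩

/-- the small labelled tree -/
theorem small_root {V : Type} [Finite V] {n L : ℕ} {θ : ℕ → ℕ → WithBot ℚ} {A : Fr V}
    (hA : A.Ok n L θ) (hT : ∀ x a, L ≤ a → ¬ (A.nd x).T a)
    (hv : ∀ x j, ¬ j < n + 1 → (A.nd x).lo j = 0 ∧ (A.nd x).hi j = 0) :
    Sma n L θ (Bd n L) (A.nd A.root) (Wt n L θ A A.root) := by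
  classical
  refine small_main hA hT hv (Sd n L) Finset.univ ?_ A.root (fun y _ => Finset.mem_univ _)
  rw [Finset.card_univ, card_Sm]

end Pool.Agent.H88R3.BA
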