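import Mathlib
import Pool.Agent.H88R3.BA.Best
import Pool.Agent.H88R3.BA.Small3

set_option autoImplicit false

namespace Pool.Agent.H88R3.BA

open Relation

/-! ### decoding -/

theorem lt_pair {t x : ℕ} (ht : 0 < t) : x < Nat.pair t x :=
  lt_of_le_of_lt (Nat.right_le_pair 0 x) (Nat.pair_lt_pair_left x ht)

theorem lt_pair_pair {t a b : ℕ} (ht : 0 < t) :
    a < Nat.pair t (Nat.pair a b) ∧ b < Nat.pair t (Nat.pair a b) :=
  ⟨lt_of_le_of_lt (Nat.left_le_pair a b) (lt_pair ht),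
    lt_of_le_of_lt (Nat.right_le_pair a b) (lt_pair ht)⟩

/-- a total decoding function -/
theorem exists_dec (n : ℕ) : ∃ dec : ℕ → Fml n,
    (dec (Nat.pair 0 0) = .bot) ∧ (∀ k, dec (Nat.pair 1 k) = .prop k) ∧
    (∀ a b, dec (Nat.pair 2 (Nat.pair a b)) = .imp (dec a) (dec b)) ∧
    (dec (Nat.pair 3 0) = .atEnd) ∧
    (∀ i : Fin (n + 1), dec (Nat.pair 4 i.val) = .turn i) ∧
    (∀ a, dec (Nat.pair 5 a) = .move (dec a)) ∧
    (∀ (i : Fin (n + 1)) a, dec (Nat.pair 6 (Nat.pair i.val a)) = .moveBy i (dec a)) ∧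
    (∀ a, dec (Nat.pair 7 a) = .movePlus (dec a)) ∧
    (∀ (i : Fin (n + 1)) a, dec (Nat.pair 8 (Nat.pair i.val a)) = .pref i (dec a)) ∧
    (∀ a, dec (Nat.pair 9 a) = .best (dec a)) ∧
    (∀ a, dec (Nat.pair 10 a) = .bestStar (dec a)) := by
  classical
  let step : (c : ℕ) → ((d : ℕ) → d < c → Fml n) → Fml n := fun c rec =>
    let r : ℕ → Fml n := fun d => if h : d < c then rec d h else .bot
    let t := (Nat.unpair c).1
    let x := (Nat.unpair c).2
    if t = 1 then .prop x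
    else if t = 2 then .imp (r (Nat.unpair x).1) (r (Nat.unpair x).2)
    else if t = 3 then .atEnd
    else if t = 4 then (if h : x < n + 1 then .turn ⟨x, h⟩ else .bot)
    else if t = 5 then .move (r x)
    else if t = 6 then (if h : (Nat.unpair x).1 < n + 1 then .moveBy ⟨_, h⟩ (r (Nat.unpair x).2)
      else .bot)
    else if t = 7 then .movePlus (r x)
    else if t = 8 then (if h : (Nat.unpair x).1 < n + 1 then .pref ⟨_, h⟩ (r (Nat.unpair x).2)
      else .bot)
    else if t = 9 then .best (r x)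
    else if t = 10 then .bestStar (r x)
    else .bot
  let dec : ℕ → Fml n := Nat.lt_wfRel.wf.fix step
  have hdec : ∀ c, dec c = step c (fun d _ => dec d) := fun c => WellFounded.fix_eq _ _ _
  refine ⟨dec, ?_, ?_, ?_, ?_, ?_, ?_, ?_, ?_, ?_, ?_, ?_⟩
  · rw [hdec]
    simp only [step, Nat.unpair_pair]
    simp
  · intro k
    rw [hdec]
    simp only [step, Nat.unpair_pair]
    simp
  · intro a b
    rw [hdec]
    simp only [step, Nat.unpair_pair]
    rw [dif_pos (lt_pair_pair (by norm_num)).1, dif_pos (lt_pair_pair (by norm_num)).2]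
    simp
  · rw [hdec]
    simp only [step, Nat.unpair_pair]
    simp
  · intro i
    rw [hdec]
    simp only [step, Nat.unpair_pair]
    rw [dif_pos i.isLt]
    simp
  · intro a
    rw [hdec]
    simp only [step, Nat.unpair_pair]
    rw [dif_pos (lt_pair (by norm_num))]
    simp
  · intro i a
    rw [hdec]
    simp only [step, Nat.unpair_pair]
    rw [dif_pos i.isLt, dif_pos (lt_pair_pair (by norm_num)).2]
    simp
  · intro a
    rw [hdec]
    simp only [step, Nat.unpair_pair]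
    rw [dif_pos (lt_pair (by norm_num))]
    simp
  · intro i a
    rw [hdec]
    simp only [step, Nat.unpair_pair]
    rw [dif_pos i.isLt, dif_pos (lt_pair_pair (by norm_num)).2]
    simp
    exact Nat.le_of_lt_succ i.isLt
  · intro a
    rw [hdec]
    simp only [step, Nat.unpair_pair]
    rw [dif_pos (lt_pair (by norm_num))]
    simp
  · intro a
    rw [hdec]
    simp only [step, Nat.unpair_pair]
    rw [dif_pos (lt_pair (by norm_num))]
    simp

/-! ### truth of the closure modalities -/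

variable {n : ℕ} {V : Type}

theorem sat_movePlus (G : Game n V) (a : Fml n) (x : V) :
    G.sat (.movePlus a) x ↔ ∃ y, G.move x y ∧ (G.sat a y ∨ G.sat (.movePlus a) y) := by
  constructor
  · rintro ⟨y, hy, ha⟩
    rcases TransGen.head'_iff.1 hy with ⟨z, hz, hzy⟩
    rcases ReflTransGen.cases_head hzy with e | ⟨w, hw, hwy⟩
    · subst e
      exact ⟨z, hz, Or.inl ha⟩
    · exact ⟨z, hz, Or.inr ⟨y, TransGen.head' hw hwy, ha⟩⟩
  · rintro ⟨y, hy, ha | ⟨z, hz, ha⟩⟩
    · exact ⟨y, .single hy, ha⟩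
    · exact ⟨z, hz.head hy, ha⟩

theorem sat_bestStar (G : Game n V) (a : Fml n) (x : V) :
    G.sat (.bestStar a) x ↔ G.sat a x ∨ ∃ y, G.best x y ∧ G.sat (.bestStar a) y := by
  constructor
  · rintro ⟨y, hy, ha⟩
    rcases ReflTransGen.cases_head hy with e | ⟨z, hz, hzy⟩
    · subst e
      exact Or.inl ha
    · exact Or.inr ⟨z, hz, y, hzy, ha⟩
  · rintro (ha | ⟨y, hy, z, hz, ha⟩)
    · exact ⟨x, .refl, ha⟩
    · exact ⟨z, hz.head hy, ha⟩

/-! ### from game trees to labelled trees -/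

theorem ofGame [Finite V] (G : Game n V) (hG : G.IsTree) (L : ℕ) :
    ∃ (θ : ℕ → ℕ → WithBot ℚ) (A : Fr V), A.Ok n L θ ∧ (∀ x a, L ≤ a → ¬ (A.nd x).T a) ∧
      (∀ x j, ¬ j < n + 1 → (A.nd x).lo j = 0 ∧ (A.nd x).hi j = 0) ∧
      (∀ i < n + 1, ∀ a < L, θ i a ≠ ⊥ → Wt n L θ A A.root i a) ∧
      (∀ (a : Fml n) x, a.enc < L → ((A.nd x).T a.enc ↔ G.sat a x)) ∧
      (∀ x, ReflTransGen G.move A.root x) := by
  classical
  obtain ⟨dec, d0, d1, d2, d3, d4, d5, d6, d7, d8, d9, d10⟩ := exists_dec n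
  have hdecenc : ∀ a : Fml n, dec a.enc = a := by
    intro a
    induction a with
    | bot => exact d0
    | prop k => exact d1 k
    | imp a b iha ihb => rw [Fml.enc, d2, iha, ihb]
    | atEnd => exact d3
    | turn i => exact d4 i
    | move a ih => rw [Fml.enc, d5, ih]
    | moveBy i a ih => rw [Fml.enc, d6, ih]
    | movePlus a ih => rw [Fml.enc, d7, ih]
    | pref i a ih => rw [Fml.enc, d8, ih]
    | best a ih => rw [Fml.enc, d9, ih]
    | bestStar a ih => rw [Fml.enc, d10, ih]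
  obtain ⟨lo, hi, hloc⟩ := exists_loc hG
  obtain ⟨r, hr1, hr2, hr3⟩ := hG.rooted
  have huniq : ∀ x x' y, G.move x y → G.move x' y → x = x' := by
    intro x x' y h1 h2
    have hy : y ≠ r := fun e => hr1 x (e ▸ h1)
    exact (hr2 y hy).unique h1 h2
  -- thresholds
  let Z : ℕ → ℕ → Set ℕ := fun i a => {k | ∃ (h : i < n + 1) (v : V), G.IsEnd v ∧
    G.sat (dec a) v ∧ lo ⟨i, h⟩ v = k}
  let θ : ℕ → ℕ → WithBot ℚ := fun i a => if (Z i a).Nonempty then
    (((sSup (Z i a) : ℕ) : ℚ) : WithBot ℚ) else ⊥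
  have hZb : ∀ i a, BddAbove (Z i a) := by
    intro i a
    by_cases h : i < n + 1
    · refine ((Set.finite_range (fun v => lo ⟨i, h⟩ v)).subset ?_).bddAbove
      rintro k ⟨_, v, -, -, rfl⟩
      exact ⟨v, rfl⟩
    · refine ⟨0, ?_⟩
      rintro k ⟨h', -⟩
      exact absurd h' h
  let nd : V → ND := fun x =>
    { T := fun a => a < L ∧ G.sat (dec a) x
      lo := fun j => if h : j < n + 1 then ((lo ⟨j, h⟩ x : ℕ) : ℚ) else 0
      hi := fun j => if h : j < n + 1 then ((hi ⟨j, h⟩ x : ℕ) : ℚ) else 0 }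
  have ndlo : ∀ x j (h : j < n + 1), (nd x).lo j = ((lo ⟨j, h⟩ x : ℕ) : ℚ) := fun x j h => dif_pos h
  have ndhi : ∀ x j (h : j < n + 1), (nd x).hi j = ((hi ⟨j, h⟩ x : ℕ) : ℚ) := fun x j h => dif_pos h
  have ndT : ∀ x a, (nd x).T a ↔ a < L ∧ G.sat (dec a) x := fun x a => Iff.rfl
  let par : V → Option V := fun y => if h : ∃ x, G.move x y then some h.choose else none
  have hpar : ∀ x y, par y = some x ↔ G.move x y := by
    intro x y
    constructor
    · intro h
      by_cases h' : ∃ x, G.move x y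
      · have : par y = some h'.choose := dif_pos h'
        rw [this] at h
        have e : h'.choose = x := by simpa using h
        exact e ▸ h'.choose_spec
      · have : par y = none := dif_neg h'
        rw [this] at h
        exact absurd h (by simp)
    · intro h
      have h' : ∃ x, G.move x y := ⟨x, h⟩
      have : par y = some h'.choose := dif_pos h'
      rw [this, huniq _ _ _ h'.choose_spec h]
  let A : Fr V :=
    { par := par
      dep := fun y => Nat.card {x // TransGen G.move x y}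
      root := r
      sg := fun y => ∃ x, G.best x y
      turn := fun x => (G.turn x).val
      nd := nd }
  have hsg : ∀ x y, G.move x y → (A.sg y ↔ G.best x y) := by
    intro x y hxy
    constructor
    · rintro ⟨x', h⟩
      rw [huniq _ _ _ hxy (best_move G h)]
      exact h
    · exact fun h => ⟨x, h⟩
  have hC : ∀ x, A.C x = {c | ∃ y, G.move x y ∧ c = (A.sg y, nd y)} := by
    intro x
    ext c
    exact exists_congr fun y => and_congr_left fun _ => hpar x y
  have hCe : ∀ x, A.C x = ∅ ↔ G.IsEnd x := by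
    intro x
    rw [hC, Set.eq_empty_iff_forall_notMem]
    constructor
    · intro h y hy
      exact h _ ⟨y, hy, rfl⟩
    · rintro h _ ⟨y, hy, rfl⟩
      exact h y hy
  have hθle : ∀ i (h : i < n + 1), ∀ a x, G.IsEnd x → ((nd x).lo i ≤ θ i a ↔
      ∃ y, G.IsEnd y ∧ G.le ⟨i, h⟩ x y ∧ G.sat (dec a) y) := by
    intro i h a x hx
    rw [ndlo x i h]
    constructor
    · intro h1
      by_cases hne : (Z i a).Nonempty
      · have e : θ i a = (((sSup (Z i a) : ℕ) : ℚ) : WithBot ℚ) := if_pos hne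
        rw [e, WithBot.coe_le_coe, Nat.cast_le] at h1
        obtain ⟨_, v, hv1, hv2, hv3⟩ := Nat.sSup_mem hne (hZb i a)
        exact ⟨v, hv1, (hloc.le _ _ _ hx hv1).2 (hv3 ▸ h1), hv2⟩
      · have e : θ i a = ⊥ := if_neg hne
        rw [e, le_bot_iff] at h1
        exact absurd h1 WithBot.coe_ne_bot
    · rintro ⟨y, hy1, hy2, hy3⟩
      have hmem : lo ⟨i, h⟩ y ∈ Z i a := ⟨h, y, hy1, hy3, rfl⟩
      have e : θ i a = (((sSup (Z i a) : ℕ) : ℚ) : WithBot ℚ) := if_pos ⟨_, hmem⟩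
      rw [e, WithBot.coe_le_coe, Nat.cast_le]
      exact ((hloc.le _ _ _ hx hy1).1 hy2).trans (le_csSup (hZb i a) hmem)
  have ex1 : ∀ x (Q : Prop → ND → Prop), (∃ c ∈ A.C x, Q c.1 c.2) ↔
      ∃ y, G.move x y ∧ Q (G.best x y) (nd y) := by
    intro x Q
    rw [hC]
    constructor
    · rintro ⟨_, ⟨y, hy, rfl⟩, h⟩
      refine ⟨y, hy, ?_⟩
      rw [← propext (hsg x y hy)]
      exact h
    · rintro ⟨y, hy, h⟩
      refine ⟨_, ⟨y, hy, rfl⟩, ?_⟩
      rw [← propext (hsg x y hy)] at h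
      exact h
  refine ⟨θ, A, ⟨?_, ?_, ?_⟩, ?_, ?_, ?_, ?_, ?_⟩
  · intro v
    constructor
    · intro h
      by_contra hn
      obtain ⟨u, hu, -⟩ := hr2 v hn
      have := (hpar u v).2 hu
      change par v = none at h
      rw [h] at this
      exact absurd this (by simp)
    · rintro rfl
      refine dif_neg ?_
      rintro ⟨x, hx⟩
      exact hr1 x hx
  · intro u v huv
    have hm : G.move u v := (hpar u v).1 huv
    refine Set.ncard_lt_ncard (s := {x | TransGen G.move x u})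
      (t := {x | TransGen G.move x v}) ?_ (Set.toFinite _)
    refine ⟨fun x hx => TransGen.tail hx hm, fun h => ?_⟩
    exact hG.acyclic u (h (TransGen.single hm))
  · intro x
    have hEnd := hCe x
    refine ⟨(G.turn x).isLt, ?_, ?_, ?_, ?_, ?_, ?_, ?_, ?_, ?_, ?_, ?_, ?_, ?_, ?_, ?_, ?_, ?_, ?_⟩
    · intro j hj
      change (nd x).lo j ≤ (nd x).hi j
      rw [ndlo x j hj, ndhi x j hj, Nat.cast_le]
      obtain ⟨u, hu, hu'⟩ := (hloc.range hG ⟨j, hj⟩ x).1.1
      rw [← hu']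
      exact (hloc.range hG ⟨j, hj⟩ x).2.2 u hu
    · intro h j hj
      change (nd x).lo j = (nd x).hi j
      rw [ndlo x j hj, ndhi x j hj, hloc.leaf x (hEnd.1 h)]
    · rw [hC]
      rintro _ ⟨y, hy, rfl⟩
      change A.sg y ↔ _
      rw [hsg x y hy, hloc.sig]
      constructor
      · rintro ⟨-, h⟩ _ ⟨z, hz, rfl⟩
        change (nd z).lo (G.turn x).val ≤ (nd y).hi (G.turn x).val
        rw [ndlo z _ (G.turn x).isLt, ndhi y _ (G.turn x).isLt, Nat.cast_le]
        exact h z hz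
      · intro h
        refine ⟨hy, fun z hz => ?_⟩
        have := h _ ⟨z, hz, rfl⟩
        change (nd z).lo (G.turn x).val ≤ (nd y).hi (G.turn x).val at this
        rw [ndlo z _ (G.turn x).isLt, ndhi y _ (G.turn x).isLt, Nat.cast_le] at this
        exact this
    · intro h j hj
      obtain ⟨y, hy, e⟩ := hloc.lo_ex x (fun h' => h (hEnd.2 h')) ⟨j, hj⟩
      refine (ex1 x (fun p d => p ∧ d.lo j = (nd x).lo j)).2 ⟨y, best_move G hy, hy, ?_⟩
      rw [ndlo x j hj, ndlo y j hj, e]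
    · intro j hj
      rw [hC]
      rintro _ ⟨y, hy, rfl⟩ hb
      change (nd x).lo j ≤ (nd y).lo j
      rw [ndlo x j hj, ndlo y j hj, Nat.cast_le]
      exact hloc.lo_le x y _ ((hsg x y hy).1 hb)
    · intro h j hj
      obtain ⟨y, hy, e⟩ := hloc.hi_ex x (fun h' => h (hEnd.2 h')) ⟨j, hj⟩
      refine (ex1 x (fun p d => p ∧ d.hi j = (nd x).hi j)).2 ⟨y, best_move G hy, hy, ?_⟩
      rw [ndhi x j hj, ndhi y j hj, e]
    · intro j hj
      rw [hC]
      rintro _ ⟨y, hy, rfl⟩ hb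
      change (nd y).hi j ≤ (nd x).hi j
      rw [ndhi x j hj, ndhi y j hj, Nat.cast_le]
      exact hloc.hi_le x y _ ((hsg x y hy).1 hb)
    · rintro - ⟨-, h⟩
      rw [d0] at h
      exact h
    · intro a b hab
      have ha : a < L := lt_trans (lt_pair_pair (by norm_num)).1 hab
      have hb : b < L := lt_trans (lt_pair_pair (by norm_num)).2 hab
      change (nd x).T _ ↔ ((nd x).T _ → (nd x).T _)
      rw [ndT, ndT, ndT, d2]
      constructor
      · rintro ⟨-, h⟩ ⟨-, h'⟩
        exact ⟨hb, h h'⟩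
      · intro h
        exact ⟨hab, fun h' => (h ⟨ha, h'⟩).2⟩
    · intro h
      change (nd x).T _ ↔ _
      rw [ndT, d3, hEnd]
      exact ⟨fun h' => h'.2, fun h' => ⟨h, h'⟩⟩
    · intro i hi h
      change (nd x).T _ ↔ _
      rw [ndT, d4 ⟨i, hi⟩, ne_eq, hEnd]
      constructor
      · rintro ⟨-, h1, h2⟩
        exact ⟨h1, congrArg Fin.val h2⟩
      · rintro ⟨h1, h2⟩
        exact ⟨h, h1, Fin.ext h2⟩
    · intro a h
      have ha : a < L := lt_trans (lt_pair (by norm_num)) h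
      change (nd x).T _ ↔ _
      rw [ndT, d5, ex1 x (fun _ d => d.T a)]
      constructor
      · rintro ⟨-, y, hy, h'⟩
        exact ⟨y, hy, ha, h'⟩
      · rintro ⟨y, hy, -, h'⟩
        exact ⟨h, y, hy, h'⟩
    · intro i hi a h
      have ha : a < L := lt_trans (lt_pair_pair (by norm_num)).2 h
      change (nd x).T _ ↔ _
      rw [ndT, d6 ⟨i, hi⟩, ex1 x (fun _ d => d.T a)]
      constructor
      · rintro ⟨-, h1, y, hy, h'⟩
        exact ⟨congrArg Fin.val h1, y, hy, ha, h'⟩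
      · rintro ⟨h1, y, hy, -, h'⟩
        exact ⟨h, Fin.ext h1, y, hy, h'⟩
    · intro a h
      have ha : a < L := lt_trans (lt_pair (by norm_num)) h
      change (nd x).T _ ↔ _
      rw [ndT, d7, ex1 x (fun _ d => d.T a ∨ d.T (Nat.pair 7 a)), sat_movePlus]
      constructor
      · rintro ⟨-, y, hy, h' | h'⟩
        · exact ⟨y, hy, Or.inl ⟨ha, h'⟩⟩
        · refine ⟨y, hy, Or.inr ⟨h, ?_⟩⟩
          rw [d7]
          exact h'
      · rintro ⟨y, hy, ⟨-, h'⟩ | ⟨-, h'⟩⟩
        · exact ⟨h, y, hy, Or.inl h'⟩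
        · rw [d7] at h'
          exact ⟨h, y, hy, Or.inr h'⟩
    · intro i hi a h
      change (nd x).T _ ↔ A.C x = ∅ ∧ ((nd x).lo i : WithBot ℚ) ≤ θ i a
      rw [ndT, d8 ⟨i, hi⟩, hEnd]
      constructor
      · rintro ⟨-, h1, h2⟩
        exact ⟨h1, (hθle i hi a x h1).2 h2⟩
      · rintro ⟨h1, h2⟩
        exact ⟨h, h1, (hθle i hi a x h1).1 h2⟩
    · intro a h
      have ha : a < L := lt_trans (lt_pair (by norm_num)) h
      change (nd x).T _ ↔ _
      rw [ndT, d9, ex1 x (fun p d => p ∧ d.T a)]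
      constructor
      · rintro ⟨-, y, hy, h'⟩
        exact ⟨y, best_move G hy, hy, ha, h'⟩
      · rintro ⟨y, -, hy, -, h'⟩
        exact ⟨h, y, hy, h'⟩
    · intro a h
      have ha : a < L := lt_trans (lt_pair (by norm_num)) h
      change (nd x).T _ ↔ (nd x).T _ ∨ _
      rw [ndT, ndT, d10, ex1 x (fun p d => p ∧ d.T (Nat.pair 10 a)), sat_bestStar]
      constructor
      · rintro ⟨-, h' | ⟨y, hy, h'⟩⟩
        · exact Or.inl ⟨ha, h'⟩
        · refine Or.inr ⟨y, best_move G hy, hy, h, ?_⟩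
          rw [d10]
          exact h'
      · rintro (⟨-, h'⟩ | ⟨y, -, hy, -, h'⟩)
        · exact ⟨h, Or.inl h'⟩
        · rw [d10] at h'
          exact ⟨h, Or.inr ⟨y, hy, h'⟩⟩
    · intro h i hi a ha hT
      change ((nd x).lo i : WithBot ℚ) ≤ θ i a
      have hx := hEnd.1 h
      rw [hθle i hi a x hx]
      exact ⟨x, hx, (hG.total _ _ _ hx hx).elim id id, hT.2⟩
  · intro x a ha h
    exact absurd h.1 (not_lt.2 ha)
  · intro x j hj
    exact ⟨dif_neg hj, dif_neg hj⟩
  · intro i hi a ha hne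
    have hne' : (Z i a).Nonempty := by
      by_contra h
      exact hne (if_neg h)
    have e : θ i a = (((sSup (Z i a) : ℕ) : ℚ) : WithBot ℚ) := if_pos hne'
    obtain ⟨h', v, hv1, hv2, hv3⟩ := Nat.sSup_mem hne' (hZb i a)
    refine ⟨hi, ha, v, ?_, (hCe v).2 hv1, ⟨ha, hv2⟩, ?_⟩
    · have hp : ∀ x y, G.move x y → A.par y = some x := fun x y h => (hpar x y).2 h
      exact rtg_mono hp (hr3 v)
    · change ((nd v).lo i : WithBot ℚ) = θ i a
      rw [e, ndlo v i hi, hv3]
  · intro a x ha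
    change (nd x).T _ ↔ _
    rw [ndT, hdecenc]
    exact ⟨fun h => h.2, fun h => ⟨ha, h⟩⟩
  · exact hr3

end Pool.Agent.H88R3.BA
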