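import Mathlib
import Pool.Agent.H88R3.BA.OfGame

set_option autoImplicit false

/-!
# The set of codes of formulas is primitive recursive
-/

namespace Pool.Agent.H88R3.BA

/-- `e` is the code of a formula -/
def IsC (n e : ℕ) : Prop := ∃ a : Fml n, a.enc = e

theorem isC_iff (n e : ℕ) : IsC n e ↔
    (e.unpair.1 = 0 ∧ e.unpair.2 = 0) ∨ e.unpair.1 = 1 ∨
    (e.unpair.1 = 2 ∧ IsC n e.unpair.2.unpair.1 ∧ IsC n e.unpair.2.unpair.2) ∨
    (e.unpair.1 = 3 ∧ e.unpair.2 = 0) ∨
    (e.unpair.1 = 4 ∧ e.unpair.2 < n + 1) ∨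
    (e.unpair.1 = 5 ∧ IsC n e.unpair.2) ∨
    (e.unpair.1 = 6 ∧ e.unpair.2.unpair.1 < n + 1 ∧ IsC n e.unpair.2.unpair.2) ∨
    (e.unpair.1 = 7 ∧ IsC n e.unpair.2) ∨
    (e.unpair.1 = 8 ∧ e.unpair.2.unpair.1 < n + 1 ∧ IsC n e.unpair.2.unpair.2) ∨
    (e.unpair.1 = 9 ∧ IsC n e.unpair.2) ∨
    (e.unpair.1 = 10 ∧ IsC n e.unpair.2) := by
  constructor
  · rintro ⟨a, rfl⟩
    have hI : ∀ b : Fml n, IsC n b.enc := fun b => ⟨b, rfl⟩
    cases a <;> simp [Fml.enc, Nat.unpair_pair, hI] <;> exact Fin.is_le _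
  · have hp : ∀ t : ℕ, e.unpair.1 = t → e = Nat.pair t e.unpair.2 := by
      rintro t rfl
      exact (Nat.pair_unpair e).symm
    rintro (⟨h, h1⟩ | h | ⟨h, ⟨a, ha⟩, b, hb⟩ | ⟨h, h1⟩ | ⟨h, h1⟩ | ⟨h, a, ha⟩ |
      ⟨h, h1, a, ha⟩ | ⟨h, a, ha⟩ | ⟨h, h1, a, ha⟩ | ⟨h, a, ha⟩ | ⟨h, a, ha⟩)
    · exact ⟨Fml.bot, by rw [hp _ h, Fml.enc, h1]⟩
    · exact ⟨Fml.prop e.unpair.2, by rw [Fml.enc, ← hp _ h]⟩
    · exact ⟨Fml.imp a b, by rw [Fml.enc, ha, hb, Nat.pair_unpair, ← hp _ h]⟩
    · exact ⟨Fml.atEnd, by rw [hp _ h, Fml.enc, h1]⟩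
    · exact ⟨Fml.turn ⟨e.unpair.2, h1⟩, by rw [Fml.enc, ← hp _ h]⟩
    · exact ⟨Fml.move a, by rw [Fml.enc, ha, ← hp _ h]⟩
    · exact ⟨Fml.moveBy ⟨e.unpair.2.unpair.1, h1⟩ a, by
        rw [Fml.enc, ha, Nat.pair_unpair, ← hp _ h]⟩
    · exact ⟨Fml.movePlus a, by rw [Fml.enc, ha, ← hp _ h]⟩
    · exact ⟨Fml.pref ⟨e.unpair.2.unpair.1, h1⟩ a, by
        rw [Fml.enc, ha, Nat.pair_unpair, ← hp _ h]⟩
    · exact ⟨Fml.best a, by rw [Fml.enc, ha, ← hp _ h]⟩
    · exact ⟨Fml.bestStar a, by rw [Fml.enc, ha, ← hp _ h]⟩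

/-- the step of the recursion -/
def StepC (q : ℕ × List Bool) : Prop :=
    (q.2.length.unpair.1 = 0 ∧ q.2.length.unpair.2 = 0) ∨ q.2.length.unpair.1 = 1 ∨
    (q.2.length.unpair.1 = 2 ∧ q.2.getD q.2.length.unpair.2.unpair.1 false = true ∧
      q.2.getD q.2.length.unpair.2.unpair.2 false = true) ∨
    (q.2.length.unpair.1 = 3 ∧ q.2.length.unpair.2 = 0) ∨
    (q.2.length.unpair.1 = 4 ∧ q.2.length.unpair.2 < q.1 + 1) ∨
    (q.2.length.unpair.1 = 5 ∧ q.2.getD q.2.length.unpair.2 false = true) ∨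
    (q.2.length.unpair.1 = 6 ∧ q.2.length.unpair.2.unpair.1 < q.1 + 1 ∧
      q.2.getD q.2.length.unpair.2.unpair.2 false = true) ∨
    (q.2.length.unpair.1 = 7 ∧ q.2.getD q.2.length.unpair.2 false = true) ∨
    (q.2.length.unpair.1 = 8 ∧ q.2.length.unpair.2.unpair.1 < q.1 + 1 ∧
      q.2.getD q.2.length.unpair.2.unpair.2 false = true) ∨
    (q.2.length.unpair.1 = 9 ∧ q.2.getD q.2.length.unpair.2 false = true) ∨
    (q.2.length.unpair.1 = 10 ∧ q.2.getD q.2.length.unpair.2 false = true)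

theorem stepC_prim : PrimrecPred StepC := by
  have hl : Primrec fun q : ℕ × List Bool => q.2.length :=
    Primrec.list_length.comp Primrec.snd
  have ht : Primrec fun q : ℕ × List Bool => q.2.length.unpair.1 :=
    Primrec.fst.comp (Primrec.unpair.comp hl)
  have hr : Primrec fun q : ℕ × List Bool => q.2.length.unpair.2 :=
    Primrec.snd.comp (Primrec.unpair.comp hl)
  have hr1 : Primrec fun q : ℕ × List Bool => q.2.length.unpair.2.unpair.1 :=
    Primrec.fst.comp (Primrec.unpair.comp hr)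
  have hr2 : Primrec fun q : ℕ × List Bool => q.2.length.unpair.2.unpair.2 :=
    Primrec.snd.comp (Primrec.unpair.comp hr)
  have hn : Primrec fun q : ℕ × List Bool => q.1 + 1 := Primrec.succ.comp Primrec.fst
  have hg : ∀ {h : ℕ × List Bool → ℕ}, Primrec h →
      PrimrecPred fun q : ℕ × List Bool => q.2.getD (h q) false = true := by
    intro h hh
    exact Primrec.eq.comp ((Primrec.list_getD false).comp Primrec.snd hh) (Primrec.const true)
  have he : ∀ {h : ℕ × List Bool → ℕ} (c : ℕ), Primrec h →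
      PrimrecPred fun q : ℕ × List Bool => h q = c := by
    intro h c hh
    exact Primrec.eq.comp hh (Primrec.const c)
  unfold StepC
  refine ((he 0 ht).and (he 0 hr)).or ?_
  refine (he 1 ht).or ?_
  refine ((he 2 ht).and ((hg hr1).and (hg hr2))).or ?_
  refine ((he 3 ht).and (he 0 hr)).or ?_
  refine ((he 4 ht).and (Primrec.nat_lt.comp hr hn)).or ?_
  refine ((he 5 ht).and (hg hr)).or ?_
  refine ((he 6 ht).and ((Primrec.nat_lt.comp hr1 hn).and (hg hr2))).or ?_
  refine ((he 7 ht).and (hg hr)).or ?_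
  refine ((he 8 ht).and ((Primrec.nat_lt.comp hr1 hn).and (hg hr2))).or ?_
  exact ((he 9 ht).and (hg hr)).or ((he 10 ht).and (hg hr))

theorem code_prim : ∃ c : ℕ × ℕ → Bool, Primrec c ∧ ∀ n e, c (n, e) = true ↔ IsC n e := by
  classical
  obtain ⟨hd, hp⟩ := stepC_prim
  have key : Primrec₂ (fun (n e : ℕ) => decide (IsC n e)) := by
    refine Primrec.nat_strong_rec _ (g := fun n l => some (decide (StepC (n, l)))) ?_ ?_
    · exact Primrec.option_some.comp hp
    · intro n e
      have hget : ∀ i, i < e → ((List.range e).map (fun m => decide (IsC n m))).getD i false =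
          decide (IsC n i) := by
        intro i hi
        rw [List.getD_eq_getElem _ _ (by simpa using hi)]
        simp
      have hlen : ((List.range e).map (fun m => decide (IsC n m))).length = e := by simp
      have hpr : ∀ t : ℕ, 0 < t → e.unpair.1 = t → e.unpair.2 < e ∧ e.unpair.2.unpair.1 < e ∧
          e.unpair.2.unpair.2 < e := by
        rintro t ht rfl
        have h1 : e.unpair.2 < e := by
          have := lt_pair (x := e.unpair.2) ht
          rwa [Nat.pair_unpair] at this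
        exact ⟨h1, lt_of_le_of_lt (Nat.unpair_left_le _) h1,
          lt_of_le_of_lt (Nat.unpair_right_le _) h1⟩
      have : StepC (n, (List.range e).map (fun m => decide (IsC n m))) ↔ IsC n e := by
        rw [isC_iff]
        unfold StepC
        simp only [hlen]
        have g1 : ∀ t : ℕ, 0 < t → ((e.unpair.1 = t ∧
            ((List.range e).map (fun m => decide (IsC n m))).getD e.unpair.2 false = true) ↔
            (e.unpair.1 = t ∧ IsC n e.unpair.2)) := by
          intro t ht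
          refine and_congr_right fun h => ?_
          rw [hget _ (hpr t ht h).1, decide_eq_true_iff]
        have g2 : ∀ t : ℕ, 0 < t → ∀ Q : Prop, ((e.unpair.1 = t ∧ Q ∧
            ((List.range e).map (fun m => decide (IsC n m))).getD e.unpair.2.unpair.2 false
              = true) ↔
            (e.unpair.1 = t ∧ Q ∧ IsC n e.unpair.2.unpair.2)) := by
          intro t ht Q
          refine and_congr_right fun h => ?_
          rw [hget _ (hpr t ht h).2.2, decide_eq_true_iff]
        have g3 : (e.unpair.1 = 2 ∧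
            ((List.range e).map (fun m => decide (IsC n m))).getD e.unpair.2.unpair.1 false
              = true ∧ IsC n e.unpair.2.unpair.2) ↔
            (e.unpair.1 = 2 ∧ IsC n e.unpair.2.unpair.1 ∧ IsC n e.unpair.2.unpair.2) := by
          refine and_congr_right fun h => ?_
          rw [hget _ (hpr 2 (by norm_num) h).2.1, decide_eq_true_iff]
        rw [g1 5 (by norm_num), g1 7 (by norm_num), g1 9 (by norm_num), g1 10 (by norm_num),
          g2 6 (by norm_num), g2 8 (by norm_num), g2 2 (by norm_num), g3]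
      simp only [this]
  exact ⟨fun q => decide (IsC q.1 q.2), key, fun n e => by simp⟩

theorem enc_inj {n : ℕ} {a b : Fml n} (h : a.enc = b.enc) : a = b := by
  induction a generalizing b with
  | bot => cases b <;> simp_all [Fml.enc, Nat.pair_eq_pair]
  | prop k => cases b <;> simp_all [Fml.enc, Nat.pair_eq_pair]
  | imp a1 a2 ih1 ih2 =>
    cases b <;> simp [Fml.enc, Nat.pair_eq_pair] at h
    exact congrArg₂ _ (ih1 h.1) (ih2 h.2)
  | atEnd => cases b <;> simp_all [Fml.enc, Nat.pair_eq_pair]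
  | turn i =>
    cases b <;> simp [Fml.enc, Nat.pair_eq_pair] at h
    exact congrArg _ (Fin.ext h)
  | move a1 ih =>
    cases b <;> simp [Fml.enc, Nat.pair_eq_pair] at h
    exact congrArg _ (ih h)
  | moveBy i a1 ih =>
    cases b <;> simp [Fml.enc, Nat.pair_eq_pair] at h
    exact congrArg₂ _ (Fin.ext h.1) (ih h.2)
  | movePlus a1 ih =>
    cases b <;> simp [Fml.enc, Nat.pair_eq_pair] at h
    exact congrArg _ (ih h)
  | pref i a1 ih =>
    cases b <;> simp [Fml.enc, Nat.pair_eq_pair] at h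
    exact congrArg₂ _ (Fin.ext h.1) (ih h.2)
  | best a1 ih =>
    cases b <;> simp [Fml.enc, Nat.pair_eq_pair] at h
    exact congrArg _ (ih h)
  | bestStar a1 ih =>
    cases b <;> simp [Fml.enc, Nat.pair_eq_pair] at h
    exact congrArg _ (ih h)

end Pool.Agent.H88R3.BA
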