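import Mathlib
import Pool.Agent.H88R3.BA.OfGame

set_option autoImplicit false

namespace Pool.Agent.H88R3.BA

open Relation

/-- a numbering which respects the depth -/
theorem exists_numbering {V : Type} [Fintype V] (dep : V → ℕ) :
    ∃ e : V ≃ Fin (Fintype.card V), ∀ u v, dep u < dep v → e u < e v := by
  classical
  let e0 := Fintype.equivFin V
  let f : Fin (Fintype.card V) → ℕ := fun i => dep (e0.symm i)
  have hm := Tuple.monotone_sort f
  refine ⟨e0.trans (Tuple.sort f).symm, fun u v huv => ?_⟩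
  by_contra hn
  have h1 := hm (not_lt.1 hn)
  simp only [Function.comp_apply, Equiv.trans_apply, Equiv.apply_symm_apply, f,
    Equiv.symm_apply_apply] at h1
  omega

/-- ranks in a finite set of rationals -/
def rnk (S : Finset ℚ) (q : ℚ) : ℕ := (S.filter (· < q)).card

theorem rnk_le {S : Finset ℚ} {p q : ℚ} (hq : q ∈ S) : p ≤ q ↔ rnk S p ≤ rnk S q := by
  constructor
  · intro h
    exact Finset.card_le_card (fun x hx => by
      rw [Finset.mem_filter] at hx ⊢
      exact ⟨hx.1, hx.2.trans_le h⟩)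
  · intro h
    by_contra hn
    rw [not_le] at hn
    have : rnk S q < rnk S p := by
      refine Finset.card_lt_card ?_
      rw [Finset.ssubset_iff_of_subset (fun x hx => by
        rw [Finset.mem_filter] at hx ⊢
        exact ⟨hx.1, hx.2.trans hn⟩)]
      refine ⟨q, Finset.mem_filter.2 ⟨hq, hn⟩, fun h' => ?_⟩
      exact absurd (Finset.mem_filter.1 h').2 (lt_irrefl _)
    omega

theorem table {V : Type} [Fintype V] {n L : ℕ} {θ : ℕ → ℕ → WithBot ℚ} {A : Fr V}
    (hA : A.Ok n L θ) (hW : ∀ i < n + 1, ∀ a < L, θ i a ≠ ⊥ → Wa n L θ A i a) :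
    ∃ (F : ℕ → ℕ → ℕ → ℕ) (e : V ≃ Fin (Fintype.card V)),
      (∀ a b c, F a b c < Ed n (Fintype.card V)) ∧
      Chk n L (Fintype.card V) F ∧ (∀ a x, Tr F a (e x) ↔ (A.nd x).T a) := by
  classical
  obtain ⟨N, hN⟩ : ∃ N, N = Fintype.card V := ⟨_, rfl⟩
  obtain ⟨e, he⟩ : ∃ e : V ≃ Fin N, ∀ u v, A.dep u < A.dep v → e u < e v := by
    subst hN
    exact exists_numbering A.dep
  suffices h : ∃ (F : ℕ → ℕ → ℕ → ℕ), (∀ a b c, F a b c < Ed n N) ∧
      Chk n L N F ∧ (∀ a x, Tr F a (e x) ↔ (A.nd x).T a) by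
    subst hN
    obtain ⟨F, h1, h2, h3⟩ := h
    exact ⟨F, e, h1, h2, h3⟩
  let S : ℕ → Finset ℚ := fun j =>
    Finset.univ.image (fun v => (A.nd v).lo j) ∪ Finset.univ.image (fun v => (A.nd v).hi j)
  have hS : ∀ j, (S j).card ≤ 2 * N := by
    intro j
    refine (Finset.card_union_le _ _).trans ?_
    have h1 : (Finset.univ.image (fun v => (A.nd v).lo j)).card ≤ N := by
      rw [hN]; exact Finset.card_image_le
    have h2 : (Finset.univ.image (fun v => (A.nd v).hi j)).card ≤ N := by
      rw [hN]; exact Finset.card_image_le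
    omega
  have hlo : ∀ j v, (A.nd v).lo j ∈ S j := fun j v =>
    Finset.mem_union_left _ (Finset.mem_image_of_mem _ (Finset.mem_univ _))
  have hhi : ∀ j v, (A.nd v).hi j ∈ S j := fun j v =>
    Finset.mem_union_right _ (Finset.mem_image_of_mem _ (Finset.mem_univ _))
  have hrn : ∀ j q, rnk (S j) q ≤ 2 * N := fun j q =>
    (Finset.card_le_card (Finset.filter_subset _ _)).trans (hS j)
  have hreq : ∀ j p q, p ∈ S j → q ∈ S j → (p = q ↔ rnk (S j) p = rnk (S j) q) := by
    intro j p q hp hq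
    rw [le_antisymm_iff, le_antisymm_iff, ← rnk_le hq, ← rnk_le hp]
  let pn : V → ℕ := fun v => match A.par v with
    | none => 0
    | some u => (e u).val
  let F : ℕ → ℕ → ℕ → ℕ := fun t a b =>
    if t = 0 then (if h : a < N then pn (e.symm ⟨a, h⟩) else 0)
    else if t = 1 then (if h : a < N then (if A.sg (e.symm ⟨a, h⟩) then 1 else 0) else 0)
    else if t = 2 then (if h : a < N then A.turn (e.symm ⟨a, h⟩) else 0)
    else if t = 3 then (if h : b < N then rnk (S a) ((A.nd (e.symm ⟨b, h⟩)).lo a) else 0)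
    else if t = 4 then (if h : b < N then rnk (S a) ((A.nd (e.symm ⟨b, h⟩)).hi a) else 0)
    else if t = 5 then (if h : b < N then (if (A.nd (e.symm ⟨b, h⟩)).T a then 1 else 0) else 0)
    else 0
  have hes : ∀ (v : V) (h : (e v).val < N), e.symm ⟨(e v).val, h⟩ = v := fun v h => by
    rw [Fin.eta, Equiv.symm_apply_apply]
  have F0 : ∀ v, F 0 (e v) 0 = pn v := by
    intro v
    have h := (e v).isLt
    simp only [F, if_true, dif_pos h, hes]
  have F1 : ∀ v, F 1 (e v) 0 = 1 ↔ A.sg v := by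
    intro v
    have h := (e v).isLt
    have : F 1 (e v) 0 = if A.sg v then 1 else 0 := by
      simp only [F, if_true, dif_pos h, hes, one_ne_zero, if_false]
    rw [this]
    by_cases hs : A.sg v
    · simp [hs]
    · simp [hs]
  have F2 : ∀ v, F 2 (e v) 0 = A.turn v := by
    intro v
    have h := (e v).isLt
    simp only [F]
    simp [h, hes]
  have F3 : ∀ j v, F 3 j (e v) = rnk (S j) ((A.nd v).lo j) := by
    intro j v
    have h := (e v).isLt
    simp only [F]
    simp [h, hes]
  have F4 : ∀ j v, F 4 j (e v) = rnk (S j) ((A.nd v).hi j) := by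
    intro j v
    have h := (e v).isLt
    simp only [F]
    simp [h, hes]
  have F5 : ∀ a v, Tr F a (e v) ↔ (A.nd v).T a := by
    intro a v
    have h := (e v).isLt
    have : F 5 a (e v) = if (A.nd v).T a then 1 else 0 := by
      simp only [F]
      simp [h, hes]
    unfold Tr
    rw [this]
    by_cases hs : (A.nd v).T a
    · simp [hs]
    · simp [hs]
  -- the root
  have hroot1 : ∀ d v, A.dep v ≤ d → v ≠ A.root → A.dep A.root < A.dep v := by
    intro d
    induction d with
    | zero =>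
      intro v hv hne
      rcases h : A.par v with _ | u
      · exact absurd ((hA.root v).1 h) hne
      · have := hA.dep u v h
        omega
    | succ d ih =>
      intro v hv hne
      rcases h : A.par v with _ | u
      · exact absurd ((hA.root v).1 h) hne
      · have h1 := hA.dep u v h
        by_cases hu : u = A.root
        · rw [← hu]
          exact h1
        · exact (ih u (by omega) hu).trans h1
  have hroot : (e A.root).val = 0 := by
    by_contra hne
    have hN0 : 0 < N := lt_of_le_of_lt (Nat.zero_le _) (e A.root).isLt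
    obtain ⟨v, hv⟩ := e.surjective ⟨0, hN0⟩
    have hvr : v ≠ A.root := by
      rintro rfl
      rw [hv] at hne
      exact hne rfl
    have := he _ _ (hroot1 _ v le_rfl hvr)
    rw [hv, Fin.lt_def] at this
    exact absurd this (Nat.not_lt_zero _)
  have hCh : ∀ u v, Ch F (e u) (e v) ↔ A.par v = some u := by
    intro u v
    unfold Ch
    rw [F0]
    rcases h : A.par v with _ | w
    · have hv : v = A.root := (hA.root v).1 h
      subst hv
      rw [hroot]
      exact iff_of_false (fun h' => absurd h'.1 (lt_irrefl _)) (by simp)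
    · have hlt : e w < e v := he _ _ (hA.dep w v h)
      have hp : pn v = (e w).val := by simp only [pn, h]
      rw [hp]
      constructor
      · rintro ⟨-, h'⟩
        rw [e.injective (Fin.ext h')]
      · intro h'
        have : w = u := by simpa using h'
        subst this
        exact ⟨lt_of_le_of_lt (Nat.zero_le _) (Fin.lt_def.1 hlt), rfl⟩
  have hall : ∀ P : ℕ → Prop, (∀ x < N, P x) ↔ ∀ v : V, P (e v) := by
    intro P
    constructor
    · intro h v
      exact h _ (e v).isLt
    · intro h x hx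
      obtain ⟨v, hv⟩ := e.surjective ⟨x, hx⟩
      have := h v
      rw [hv] at this
      exact this
  have hex : ∀ P : ℕ → Prop, (∃ x < N, P x) ↔ ∃ v : V, P (e v) := by
    intro P
    constructor
    · rintro ⟨x, hx, h⟩
      obtain ⟨v, hv⟩ := e.surjective ⟨x, hx⟩
      exact ⟨v, by rw [hv]; exact h⟩
    · rintro ⟨v, h⟩
      exact ⟨_, (e v).isLt, h⟩
  have hBe : ∀ u v, Be F (e u) (e v) ↔ A.par v = some u ∧ A.sg v := by
    intro u v
    unfold Be
    rw [hCh, F1]
  have hEn : ∀ u, En N F (e u) ↔ A.C u = ∅ := by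
    intro u
    unfold En
    rw [hall (fun y => ¬ Ch F (e u) y), Set.eq_empty_iff_forall_notMem]
    constructor
    · rintro h _ ⟨y, hy, rfl⟩
      exact h y ((hCh u y).2 hy)
    · intro h v hv
      exact h _ ⟨v, (hCh u v).1 hv, rfl⟩
  have hexC : ∀ u (Q : Prop × ND → Prop), (∃ c ∈ A.C u, Q c) ↔
      ∃ v, A.par v = some u ∧ Q (A.sg v, A.nd v) := by
    intro u Q
    constructor
    · rintro ⟨_, ⟨v, hv, rfl⟩, h⟩
      exact ⟨v, hv, h⟩
    · rintro ⟨v, hv, h⟩
      exact ⟨_, ⟨v, hv, rfl⟩, h⟩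
  refine ⟨F, ?_, ⟨⟨?_, ?_, ?_, ?_, ?_, ?_⟩, ?_⟩, F5⟩
  · intro a b c
    have hturn : ∀ v, A.turn v < n + 1 := fun v => (hA.loc v).tn_lt
    have hpn : ∀ v, pn v ≤ N := by
      intro v
      rcases h : A.par v with _ | w
      · simp only [pn, h]
        exact Nat.zero_le _
      · simp only [pn, h]
        exact (e w).isLt.le
    have h1 := hrn
    simp only [F, Ed]
    split_ifs with _ h _ h h _ h _ h _ h _ h h
    · have := hpn (e.symm ⟨b, h⟩)
      omega
    · omega
    · omega
    · omega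
    · omega
    · have := hturn (e.symm ⟨b, h⟩)
      omega
    · omega
    · have := hrn b ((A.nd (e.symm ⟨c, h⟩)).lo b)
      omega
    · omega
    · have := hrn b ((A.nd (e.symm ⟨c, h⟩)).hi b)
      omega
    · omega
    · omega
    · omega
    · omega
    · omega
  · exact lt_of_le_of_lt (Nat.zero_le _) (e A.root).isLt
  · rw [hall (fun y => 0 < y → F 0 y 0 < y)]
    intro v hv
    rw [F0]
    rcases h : A.par v with _ | w
    · rw [(hA.root v).1 h, hroot] at hv
      exact absurd hv (lt_irrefl _)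
    · have hp : pn v = (e w).val := by simp only [pn, h]
      rw [hp]
      exact Fin.lt_def.1 (he _ _ (hA.dep w v h))
  · rw [hall (fun y => F 2 y 0 < n + 1)]
    intro v
    rw [F2]
    exact (hA.loc v).tn_lt
  · rw [hall (fun x => En N F x → ∀ j < n + 1, F 3 j x = F 4 j x)]
    intro v hv j hj
    rw [F3, F4, (hA.loc v).leaf ((hEn v).1 hv) j hj]
  · rw [hall (fun x => ∀ y < N, Ch F x y → (F 1 y 0 = 1 ↔ ∀ z < N, Ch F x z →
      F 3 (F 2 x 0) z ≤ F 4 (F 2 x 0) y))]
    intro u
    rw [hall (fun y => Ch F (e u) y → (F 1 y 0 = 1 ↔ ∀ z < N, Ch F (e u) z →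
      F 3 (F 2 (e u) 0) z ≤ F 4 (F 2 (e u) 0) y))]
    intro v hv
    rw [hCh] at hv
    have hs : A.sg v ↔ _ := (hA.loc u).sig (A.sg v, A.nd v) ⟨v, hv, rfl⟩
    rw [F2, hall (fun z => Ch F (e u) z → F 3 (A.turn u) z ≤ F 4 (A.turn u) (e v))]
    refine (F1 v).trans (hs.trans ?_)
    constructor
    · intro h z hz
      rw [hCh] at hz
      rw [F3, F4, ← rnk_le (hhi _ v)]
      exact h (A.sg z, A.nd z) ⟨z, hz, rfl⟩
    · rintro h _ ⟨z, hz, rfl⟩
      have := h z ((hCh u z).2 hz)
      rw [F3, F4, ← rnk_le (hhi _ v)] at this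
      exact this
  · rw [hall (fun x => ¬ En N F x → ∀ j < n + 1,
      ((∃ y < N, Be F x y ∧ F 3 j y = F 3 j x) ∧ ∀ y < N, Be F x y → F 3 j x ≤ F 3 j y) ∧
      ((∃ y < N, Be F x y ∧ F 4 j y = F 4 j x) ∧ ∀ y < N, Be F x y → F 4 j y ≤ F 4 j x))]
    intro u hu j hj
    rw [hEn] at hu
    refine ⟨⟨?_, ?_⟩, ?_, ?_⟩
    · rw [hex (fun y => Be F (e u) y ∧ F 3 j y = F 3 j (e u))]
      obtain ⟨v, hv, h1, h2⟩ := (hexC u _).1 ((hA.loc u).lo_ex hu j hj)
      exact ⟨v, (hBe u v).2 ⟨hv, h1⟩, by rw [F3, F3, h2]⟩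
    · rw [hall (fun y => Be F (e u) y → F 3 j (e u) ≤ F 3 j y)]
      intro v hv
      rw [hBe] at hv
      rw [F3, F3, ← rnk_le (hlo _ v)]
      exact (hA.loc u).lo_le j hj _ ⟨v, hv.1, rfl⟩ hv.2
    · rw [hex (fun y => Be F (e u) y ∧ F 4 j y = F 4 j (e u))]
      obtain ⟨v, hv, h1, h2⟩ := (hexC u _).1 ((hA.loc u).hi_ex hu j hj)
      exact ⟨v, (hBe u v).2 ⟨hv, h1⟩, by rw [F4, F4, h2]⟩
    · rw [hall (fun y => Be F (e u) y → F 4 j y ≤ F 4 j (e u))]
      intro v hv
      rw [hBe] at hv
      rw [F4, F4, ← rnk_le (hhi _ u)]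
      exact (hA.loc u).hi_le j hj _ ⟨v, hv.1, rfl⟩ hv.2
  · rw [hall (fun x => ChkT n L N F x)]
    intro u
    have hl := hA.loc u
    refine ⟨?_, ?_, ?_, ?_, ?_, ?_, ?_, ?_, ?_, ?_⟩
    · intro h
      rw [F5]
      exact hl.t0 h
    · intro a _ b _ h
      rw [F5, F5, F5]
      exact hl.t2 a b h
    · intro h
      rw [F5, hEn]
      exact hl.t3 h
    · intro i hi h
      rw [F5, hEn, F2]
      exact hl.t4 i hi h
    · intro a _ h
      rw [F5, hl.t5 a h, hexC, hex (fun y => Ch F (e u) y ∧ Tr F a y)]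
      exact exists_congr fun v => by rw [hCh, F5]
    · intro i hi a _ h
      rw [F5, hl.t6 i hi a h, hexC, F2, hex (fun y => Ch F (e u) y ∧ Tr F a y)]
      exact and_congr_right fun _ => exists_congr fun v => by rw [hCh, F5]
    · intro a _ h
      rw [F5, hl.t7 a h, hexC, hex (fun y => Ch F (e u) y ∧ (Tr F a y ∨ Tr F (Nat.pair 7 a) y))]
      exact exists_congr fun v => by rw [hCh, F5, F5]
    · intro i hi a ha h
      rw [F5, hl.t8 i hi a h, hEn,
        hex (fun y => En N F y ∧ F 3 i (e u) ≤ F 3 i y ∧ Tr F a y)]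
      refine and_congr_right fun hu => ?_
      constructor
      · intro h1
        have hne : θ i a ≠ ⊥ := by
          intro h2
          rw [h2, le_bot_iff] at h1
          exact WithBot.coe_ne_bot h1
        obtain ⟨-, -, v, hv1, hv2, hv3⟩ := hW i hi a ha hne
        refine ⟨v, (hEn v).2 hv1, ?_, (F5 a v).2 hv2⟩
        rw [← hv3, WithBot.coe_le_coe] at h1
        rw [F3, F3, ← rnk_le (hlo _ v)]
        exact h1
      · rintro ⟨v, hv1, hv2, hv3⟩
        rw [F3, F3, ← rnk_le (hlo _ v)] at hv2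
        rw [F5] at hv3
        exact (WithBot.coe_le_coe.2 hv2).trans ((hA.loc v).g1 ((hEn v).1 hv1) i hi a ha hv3)
    · intro a _ h
      rw [F5, hl.t9 a h, hexC, hex (fun y => Be F (e u) y ∧ Tr F a y)]
      exact exists_congr fun v => by rw [hBe, F5, and_assoc]
    · intro a _ h
      rw [F5, F5, hl.t10 a h, hexC, hex (fun y => Be F (e u) y ∧ Tr F (Nat.pair 10 a) y)]
      exact or_congr_right (exists_congr fun v => by rw [hBe, F5, and_assoc])

end Pool.Agent.H88R3.BA
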