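import Mathlib
import Pool.Agent.H88R3.BA.Table
import Pool.Agent.H88R3.BA.OfGame
import Pool.Agent.H88R3.BA.Small3
import Pool.Agent.H285R3.BA.K2

set_option autoImplicit false

/-!
# Validity is equivalent to a bounded statement about tables
-/

namespace Pool.Agent.H88R3.BA

open Relation

theorem neg_lt_Lc (e : ℕ) : Nat.pair 2 (Nat.pair e (Nat.pair 0 0)) < Lc e :=
  lt_of_lt_of_le (lt_pair (by norm_num)) (Nat.le_succ _)

theorem enc_lt_Lc (e : ℕ) : e < Lc e :=
  lt_trans (lt_pair_pair (by norm_num)).1 (neg_lt_Lc e)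

theorem valid_iff {n : ℕ} (a : Fml n) : Valid a ↔
    ∀ N ≤ Bd n (Lc a.enc), ∀ F : ℕ → ℕ → ℕ → ℕ, (∀ u v w, F u v w < Ed n N) →
      Chk n (Lc a.enc) N F → ∀ x < N, Tr F a.enc x := by
  classical
  constructor
  · intro hv N _ F _ hC x hx
    obtain ⟨G, hG, hs⟩ := sound hC
    exact (hs a (enc_lt_Lc _) ⟨x, hx⟩).1 (hv N G hG ⟨x, hx⟩)
  · intro h
    by_contra hnv
    unfold Valid at hnv
    push Not at hnv
    obtain ⟨N0, G0, hG0, x0, hx0⟩ := hnv
    obtain ⟨θ, A, hok, hT, hlh, hW, hsat, hreach⟩ := ofGame G0 hG0 (Lc a.enc)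
    obtain ⟨V, hV, B, hB, hroot, hWa, hcard⟩ := small_root hok hT hlh
    obtain ⟨F, e, hF, hC, hTr⟩ := table hB (by
      intro i hi b hb hne
      rw [hWa]
      exact hW i hi b hb hne)
    obtain ⟨G, hG, hs⟩ := sound hC
    have hall : ∀ y, G.sat a y := fun y =>
      (hs a (enc_lt_Lc _) y).2 (h _ hcard F hF hC y.1 y.2)
    have key : ∀ b : Fml n, b.enc < Lc a.enc → G0.sat b A.root → G.sat b (e B.root) := by
      intro b hb h0
      rw [hs b hb, hTr, hroot, hsat b _ hb]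
      exact h0
    rcases (reflTransGen_iff_eq_or_transGen.1 (hreach x0)) with h1 | h1
    · subst h1
      exact key (Fml.imp a Fml.bot) (neg_lt_Lc _) (fun h2 => hx0 h2) (hall _)
    · obtain ⟨y, _, hy⟩ := key (Fml.movePlus (Fml.imp a Fml.bot)) (Nat.lt_succ_self _)
        ⟨x0, h1, fun h2 => hx0 h2⟩
      exact hy (hall y)

end Pool.Agent.H88R3.BA
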