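import Mathlib
import Pool.Agent.H88R3.BA.Main
import Pool.Agent.H88R3.BA.Code
import Pool.Agent.H663R5.K1

set_option autoImplicit false

/-!
# The modal logic of best action in finite game trees is decidable
-/

namespace Pool.Agent.H88R3.BA.Decidable

open Pool.Agent.H88R3.BA

/-- Theorems of the system with the axioms `Ax` and the rules modus ponens and necessitation
for each of the boxes (`[R] a` is `¬ ⟨R⟩ ¬ a`, and `¬ a` is `a → bot`). -/
inductive Thm {n : ℕ} (Ax : Fml n → Prop) : Fml n → Prop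
  | ax {a : Fml n} : Ax a → Thm Ax a
  | mp {a b : Fml n} : Thm Ax (.imp a b) → Thm Ax a → Thm Ax b
  | necMove {a : Fml n} : Thm Ax a → Thm Ax (.imp (.move (.imp a .bot)) .bot)
  | necMoveBy {i : Fin (n + 1)} {a : Fml n} : Thm Ax a →
      Thm Ax (.imp (.moveBy i (.imp a .bot)) .bot)
  | necMovePlus {a : Fml n} : Thm Ax a → Thm Ax (.imp (.movePlus (.imp a .bot)) .bot)
  | necPref {i : Fin (n + 1)} {a : Fml n} : Thm Ax a →
      Thm Ax (.imp (.pref i (.imp a .bot)) .bot)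
  | necBest {a : Fml n} : Thm Ax a → Thm Ax (.imp (.best (.imp a .bot)) .bot)
  | necBestStar {a : Fml n} : Thm Ax a → Thm Ax (.imp (.bestStar (.imp a .bot)) .bot)

theorem result :
    (∃ f : ℕ × ℕ → Bool, Primrec f ∧
      ∀ n e : ℕ, f (n, e) = true ↔ ∃ a : Fml n, a.enc = e ∧ Valid a) ∧
    (∀ (n : ℕ) (a b : Fml n), a.enc = b.enc → a = b) ∧
    (∀ n : ℕ, ∃ Ax : Fml n → Prop, (REPred fun e : ℕ => ∃ a : Fml n, a.enc = e ∧ Ax a) ∧
      ∀ a : Fml n, Thm Ax a ↔ Valid a) ∧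
    (∀ (n : ℕ) (a : Fml n), (∀ N ≤ Bd n (Lc a.enc), ∀ G : Game n (Fin N), G.IsTree →
      ∀ x, G.sat a x) → Valid a) := by
  classical
  have main : ∃ f : ℕ × ℕ → Bool, Primrec f ∧
      ∀ n e : ℕ, f (n, e) = true ↔ ∃ a : Fml n, a.enc = e ∧ Valid a := by
    obtain ⟨f, hf, hfs⟩ := dec
    obtain ⟨c, hc, hcs⟩ := code_prim
    refine ⟨fun q => f q && c q, Primrec.and.comp hf hc, fun n e => ?_⟩
    rw [Bool.and_eq_true, hcs]
    constructor
    · rintro ⟨h1, a, rfl⟩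
      exact ⟨a, rfl, (valid_iff a).2 ((hfs n _).1 h1)⟩
    · rintro ⟨a, rfl, ha⟩
      exact ⟨(hfs n _).2 ((valid_iff a).1 ha), a, rfl⟩
  refine ⟨main, fun n a b h => enc_inj h, fun n => ⟨Valid, ?_, fun a => ⟨fun h => ?_, Thm.ax⟩⟩,
    fun n a h => (valid_iff a).2 ?_⟩
  · obtain ⟨f, hf, hfs⟩ := main
    have h1 : Primrec fun e : ℕ => f (n, e) :=
      hf.comp (Primrec.pair (Primrec.const n) Primrec.id)
    have h2 : PrimrecPred fun e : ℕ => f (n, e) = true :=
      Primrec.eq.comp h1 (Primrec.const true)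
    have h3 : ComputablePred fun e : ℕ => f (n, e) = true := by
      obtain ⟨hd, hp⟩ := h2
      exact ⟨hd, hp.to_comp⟩
    exact h3.to_re.of_eq fun e => hfs n e
  · induction h with
    | ax h => exact h
    | mp _ _ ih1 ih2 => exact fun N G hG x => ih1 N G hG x (ih2 N G hG x)
    | necMove _ ih => exact fun N G hG x ⟨y, _, h2⟩ => h2 (ih N G hG y)
    | necMoveBy _ ih => exact fun N G hG x ⟨_, y, _, h2⟩ => h2 (ih N G hG y)
    | necMovePlus _ ih => exact fun N G hG x ⟨y, _, h2⟩ => h2 (ih N G hG y)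
    | necPref _ ih => exact fun N G hG x ⟨_, y, _, _, h2⟩ => h2 (ih N G hG y)
    | necBest _ ih => exact fun N G hG x ⟨y, _, h2⟩ => h2 (ih N G hG y)
    | necBestStar _ ih => exact fun N G hG x ⟨y, _, h2⟩ => h2 (ih N G hG y)
  · intro N hN F _ hC x hx
    obtain ⟨G, hG, hs⟩ := sound hC
    exact (hs a (enc_lt_Lc _) ⟨x, hx⟩).1 (h N hN G hG ⟨x, hx⟩)

end Pool.Agent.H88R3.BA.Decidable
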